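import Pool.Agent.SCB.Prod

/-!
Project StrongCoupling (MP_2d9608_mp): periodized bumps.
-/

set_option autoImplicit false

open MeasureTheory H47.SE Metric
open scoped ENNReal Topology

namespace Pool.Agent.SCB

variable {L : ℝ}

theorem norm_latt_ge (hL : 0 < L) {n : Fin 3 → ℤ} (hn : n ≠ 0) : L ≤ ‖latt L n‖ := by
  obtain ⟨a, ha⟩ := Function.ne_iff.1 hn
  have h1 : ‖latt L n a‖ ≤ ‖latt L n‖ := PiLp.norm_apply_le _ _
  refine le_trans ?_ h1
  rw [latt_apply, norm_mul, Real.norm_eq_abs, Real.norm_eq_abs, abs_of_pos hL]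
  have h2 : (1 : ℝ) ≤ |((n a : ℤ) : ℝ)| := by
    have h3 : (1 : ℤ) ≤ |n a| := Int.one_le_abs (by simpa using ha)
    exact_mod_cast h3
  nlinarith

theorem latt_sub' (L : ℝ) (n k : Fin 3 → ℤ) : latt L (n - k) = latt L n - latt L k := by
  ext a; simp; ring

/-- Near any point at most one translate meets the ball. -/
theorem exists_unique_translate (hL : 0 < L) {r : ℝ} (h4 : 4 * r ≤ L) (z x₀ : E3) :
    ∃ n₀ : Fin 3 → ℤ, ∀ x ∈ ball x₀ r, ∀ n ≠ n₀, x + latt L n ∉ ball z r := by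
  by_cases h : ∃ (n₀ : Fin 3 → ℤ) (x₁ : E3), x₁ ∈ ball x₀ r ∧ x₁ + latt L n₀ ∈ ball z r
  · obtain ⟨n₀, x₁, h1, h2⟩ := h
    refine ⟨n₀, fun x hx n hn h3 => ?_⟩
    have h5 := norm_latt_ge hL (sub_ne_zero.2 hn)
    rw [latt_sub'] at h5
    rw [mem_ball, dist_eq_norm] at h1 h2 h3 hx
    have e : latt L n - latt L n₀ = (x + latt L n - z) - (x₁ + latt L n₀ - z) - (x - x₀) +
        (x₁ - x₀) := by abel
    rw [e] at h5
    have h6 : ‖(x + latt L n - z) - (x₁ + latt L n₀ - z) - (x - x₀) + (x₁ - x₀)‖ ≤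
        ‖x + latt L n - z‖ + ‖x₁ + latt L n₀ - z‖ + ‖x - x₀‖ + ‖x₁ - x₀‖ := by
      refine (norm_add_le _ _).trans (add_le_add_left ?_ _)
      refine (norm_sub_le _ _).trans (add_le_add_left ?_ _)
      exact norm_sub_le _ _
    linarith
  · push Not at h
    exact ⟨0, fun x hx n _ => h n x hx⟩

/-- The periodization near a point. -/
theorem perPot_near {r : ℝ} {z x₀ : E3} {n₀ : Fin 3 → ℤ}
    (hn : ∀ x ∈ ball x₀ r, ∀ n ≠ n₀, x + latt L n ∉ ball z r) {F : E3 → ℝ}
    (hF : ∀ y ∉ ball z r, F y = 0) {x : E3} (hx : x ∈ ball x₀ r) :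
    perPot F L x = F (x + latt L n₀) :=
  tsum_eq_single n₀ fun n hne => hF _ (hn x hx n hne)

theorem unfold_real [hL : Fact (0 < L)] {F : E3 → ℝ} (hF : Integrable F) :
    ∫ x in cell L, perPot F L x = ∫ x, F x := by
  have h := unfold_integral (L := L) hF (fun _ => 1) continuous_const (by simp) (by simp)
  simp only [mul_one] at h
  rw [integral_complex_ofReal, integral_complex_ofReal] at h
  exact_mod_cast h

/-- a smooth bump near `z` -/
structure BP (z : E3) (r : ℝ) (b : E3 → ℝ) : Prop where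
  smooth : ContDiff ℝ (⊤ : ℕ∞) b
  supp : tsupport b ⊆ ball z r
  one : ∫ x, b x ^ 2 = 1

theorem BP.zero {z : E3} {r : ℝ} {b : E3 → ℝ} (hb : BP z r b) {y : E3} (hy : y ∉ ball z r) :
    b y = 0 := by
  by_contra h
  exact hy (hb.supp (subset_tsupport _ h))

theorem BP.fderiv_zero {z : E3} {r : ℝ} {b : E3 → ℝ} (hb : BP z r b) {y : E3}
    (hy : y ∉ ball z r) : fderiv ℝ b y = 0 := by
  by_contra h
  exact hy (hb.supp (support_fderiv_subset ℝ h))

theorem BP.compact {z : E3} {r : ℝ} {b : E3 → ℝ} (hb : BP z r b) : HasCompactSupport b :=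
  IsCompact.of_isClosed_subset (isCompact_closedBall z r) (isClosed_tsupport b)
    (hb.supp.trans ball_subset_closedBall)

theorem BP.integrable_sq {z : E3} {r : ℝ} {b : E3 → ℝ} (hb : BP z r b) :
    Integrable fun x => b x ^ 2 := by
  have hc : Continuous fun x => b x ^ 2 := hb.smooth.continuous.pow 2
  have hs : HasCompactSupport fun x => b x ^ 2 :=
    hb.compact.comp_left (g := fun t : ℝ => t ^ 2) (by simp)
  exact hc.integrable_of_hasCompactSupport hs

theorem BP.near_fderiv {z : E3} {r : ℝ} {b : E3 → ℝ} (hb : BP z r b)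
    {x₀ : E3} {n₀ : Fin 3 → ℤ} (hr : 0 < r)
    (hn : ∀ x ∈ ball x₀ r, ∀ n ≠ n₀, x + latt L n ∉ ball z r) :
    (perPot b L) =ᶠ[𝓝 x₀] fun x => b (x + latt L n₀) := by
  filter_upwards [ball_mem_nhds x₀ hr] with x hx
  exact perPot_near hn (fun y hy => hb.zero hy) hx

theorem BP.fderiv_sq [hL : Fact (0 < L)] {z : E3} {r : ℝ} {b : E3 → ℝ} (hb : BP z r b)
    (hr : 0 < r) (h4 : 4 * r ≤ L) (x₀ : E3) (e : E3) :
    (fderiv ℝ (perPot b L) x₀ e) ^ 2 = perPot (fun y => (fderiv ℝ b y e) ^ 2) L x₀ := by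
  obtain ⟨n₀, hn⟩ := exists_unique_translate hL.out h4 z x₀
  rw [(hb.near_fderiv hr hn).fderiv_eq, perPot_near hn (F := fun y => (fderiv ℝ b y e) ^ 2)
    (fun y hy => by rw [hb.fderiv_zero hy]; simp) (mem_ball_self hr)]
  have h2 : fderiv ℝ (fun y => b (y + latt L n₀)) x₀ = fderiv ℝ b (x₀ + latt L n₀) :=
    fderiv_comp_add_right (f := b) (x := x₀) (latt L n₀)
  rw [h2]

theorem BP.sq [hL : Fact (0 < L)] {z : E3} {r : ℝ} {b : E3 → ℝ} (hb : BP z r b)
    (hr : 0 < r) (h4 : 4 * r ≤ L) (x₀ : E3) :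
    (perPot b L x₀) ^ 2 = perPot (fun y => b y ^ 2) L x₀ := by
  obtain ⟨n₀, hn⟩ := exists_unique_translate hL.out h4 z x₀
  rw [perPot_near hn (fun y hy => hb.zero hy) (mem_ball_self hr),
    perPot_near hn (F := fun y => b y ^ 2) (fun y hy => by rw [hb.zero hy]; simp)
      (mem_ball_self hr)]

theorem BP.pf [hL : Fact (0 < L)] {z : E3} {r : ℝ} {b : E3 → ℝ} (hb : BP z r b)
    (hr : 0 < r) (h4 : 4 * r ≤ L) : PF L (perPot b L) := by
  refine ⟨?_, perPot_periodic b L, ?_⟩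
  · rw [contDiff_iff_contDiffAt]
    intro x₀
    obtain ⟨n₀, hn⟩ := exists_unique_translate hL.out h4 z x₀
    refine ContDiffAt.congr_of_eventuallyEq ?_ (hb.near_fderiv hr hn)
    exact (hb.smooth.comp (contDiff_id.add contDiff_const)).contDiffAt
  · simp_rw [hb.sq hr h4]
    rw [unfold_real, hb.one]
    exact hb.integrable_sq

theorem BP.kin [hL : Fact (0 < L)] {z : E3} {r : ℝ} {b : E3 → ℝ} (hb : BP z r b)
    (hr : 0 < r) (h4 : 4 * r ≤ L) (e : E3) :
    ∫ x in cell L, (fderiv ℝ (perPot b L) x e) ^ 2 = ∫ x, (fderiv ℝ b x e) ^ 2 := by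
  simp_rw [hb.fderiv_sq hr h4]
  refine unfold_real ?_
  have h1 : Continuous fun x => fderiv ℝ b x e :=
    (hb.smooth.continuous_fderiv (by simp)).clm_apply continuous_const
  have h2 : Continuous fun x => (fderiv ℝ b x e) ^ 2 := h1.pow 2
  have h3 : HasCompactSupport fun x => fderiv ℝ b x e := hb.compact.fderiv_apply ℝ e
  have h4 : HasCompactSupport fun x => (fderiv ℝ b x e) ^ 2 :=
    h3.comp_left (g := fun t : ℝ => t ^ 2) (by simp)
  exact h2.integrable_of_hasCompactSupport h4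

/-- existence of a bump at the origin -/
theorem exists_BP {r : ℝ} (hr : 0 < r) : ∃ b : E3 → ℝ, BP 0 r b := by
  let β : ContDiffBump (0 : E3) := ⟨r / 4, r / 2, by positivity, by linarith⟩
  have hc : Continuous fun x => β x ^ 2 := (β.continuous).pow 2
  have hs : HasCompactSupport fun x => β x ^ 2 :=
    β.hasCompactSupport.comp_left (g := fun t : ℝ => t ^ 2) (by simp)
  have hpos : 0 < ∫ x, β x ^ 2 := by
    refine hc.integral_pos_of_hasCompactSupport_nonneg_nonzero hs (fun x => by positivity)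
      (x := 0) ?_
    have : β 0 = 1 := β.one_of_mem_closedBall (mem_closedBall_self (by positivity))
    rw [this]
    norm_num
  set I := ∫ x, β x ^ 2 with hI
  refine ⟨fun x => (Real.sqrt I)⁻¹ * β x, ?_, ?_, ?_⟩
  · exact contDiff_const.mul β.contDiff
  · refine (tsupport_mul_subset_right).trans ?_
    rw [β.tsupport_eq]
    exact closedBall_subset_ball (by show r / 2 < r; linarith)
  · simp_rw [mul_pow]
    rw [integral_const_mul, inv_pow, Real.sq_sqrt hpos.le, inv_mul_cancel₀ hpos.ne']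

/-- translation of a bump -/
theorem BP.shift {r : ℝ} {b : E3 → ℝ} (hb : BP 0 r b) (z : E3) : BP z r fun x => b (x - z) := by
  refine ⟨hb.smooth.comp (contDiff_id.sub contDiff_const), ?_, ?_⟩
  · intro x hx
    have h1 : x - z ∈ tsupport b := by
      have h2 : tsupport (b ∘ fun x : E3 => x - z) ⊆ (fun x : E3 => x - z) ⁻¹' tsupport b :=
        tsupport_comp_subset_preimage b (by fun_prop)
      exact h2 hx
    have h3 := hb.supp h1
    rw [mem_ball_zero_iff] at h3
    rwa [mem_ball, dist_eq_norm]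
  · rw [integral_sub_right_eq_self (fun x => b x ^ 2) z]
    exact hb.one

end Pool.Agent.SCB
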