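import Mathlib

/-!
Project StrongCoupling (MP_2d9608_mp): the number of pairs of particles at one site.
-/

set_option autoImplicit false

namespace Pool.Agent.SCB

/-- pairs of particles at the same site -/
def pairs (N p : ℕ) : Finset (Fin N × Fin N) :=
  Finset.univ.filter fun q => q.1 < q.2 ∧ (q.1 : ℕ) % p = (q.2 : ℕ) % p

theorem sum_div (p : ℕ) (hp : 0 < p) (N : ℕ) :
    2 * ∑ j ∈ Finset.range N, ((j / p : ℕ) : ℤ) =
      (N / p : ℕ) * ((N / p : ℕ) - 1) * p + 2 * (N / p : ℕ) * (N % p : ℕ) := by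
  induction N with
  | zero => simp
  | succ N ih =>
    rw [Finset.sum_range_succ, mul_add, ih]
    have h1 := Nat.div_add_mod N p
    have h2 := Nat.mod_lt N hp
    by_cases h : N % p + 1 = p
    · have h3 : (N + 1) / p = N / p + 1 := by
        have : N + 1 = p * (N / p + 1) := by
          rw [mul_add]; omega
        rw [this, Nat.mul_div_cancel_left _ hp]
      have h4 : (N + 1) % p = 0 := by
        have : N + 1 = p * (N / p + 1) := by
          rw [mul_add]; omega
        rw [this, Nat.mul_mod_right]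
      rw [h3, h4]
      have h5 : ((N % p : ℕ) : ℤ) = p - 1 := by omega
      rw [h5]
      push_cast
      ring
    · have h6 : N % p + 1 < p := by omega
      have h7 : N + 1 = (N % p + 1) + p * (N / p) := by omega
      have h3 : (N + 1) / p = N / p := by
        rw [h7, Nat.add_mul_div_left _ _ hp, Nat.div_eq_of_lt h6, zero_add]
      have h4 : (N + 1) % p = N % p + 1 := by
        rw [h7, Nat.add_mul_mod_self_left, Nat.mod_eq_of_lt h6]
      rw [h3, h4]
      push_cast
      ring

theorem card_pairs (N p : ℕ) (hp : 0 < p) :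
    (pairs N p).card = ∑ j ∈ Finset.range N, j / p := by
  have h1 : (pairs N p).card = ∑ j : Fin N, (j : ℕ) / p := by
    rw [pairs, Finset.card_filter, ← Finset.univ_product_univ, Finset.sum_product_right]
    refine Finset.sum_congr rfl fun j _ => ?_
    have h2 : ∑ i : Fin N, (if (i, j).1 < (i, j).2 ∧ ((i, j).1 : ℕ) % p = ((i, j).2 : ℕ) % p then 1
        else 0) = ∑ i ∈ Finset.range N, if i < (j : ℕ) ∧ i % p = (j : ℕ) % p then 1 else 0 := by
      rw [← Fin.sum_univ_eq_sum_range (fun i => if i < (j : ℕ) ∧ i % p = (j : ℕ) % p then 1 else 0)]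
      refine Finset.sum_congr rfl fun i _ => ?_
      simp only [Fin.lt_def]
    rw [h2, ← Finset.card_filter]
    have h3 : (Finset.range N).filter (fun i => i < (j : ℕ) ∧ i % p = (j : ℕ) % p) =
        (Finset.range (j : ℕ)).filter (fun i => i ≡ (j : ℕ) [MOD p]) := by
      ext i
      simp only [Finset.mem_filter, Finset.mem_range, Nat.ModEq]
      have := j.2
      constructor
      · rintro ⟨-, h, h'⟩; exact ⟨h, h'⟩
      · rintro ⟨h, h'⟩; exact ⟨by omega, h, h'⟩
    rw [h3, ← Nat.count_eq_card_filter_range, Nat.count_modEq_card _ hp]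
    simp
  rw [h1, Fin.sum_univ_eq_sum_range (fun j => j / p)]

theorem pairs_le (N p : ℕ) (hp : 0 < p) (h : p ≤ N) :
    16 * (p : ℝ) * (pairs N p).card ≤ N * (9 * N - 8 * p) := by
  have h1 := sum_div p hp N
  have h2 : ((pairs N p).card : ℤ) = ∑ j ∈ Finset.range N, ((j / p : ℕ) : ℤ) := by
    rw [card_pairs N p hp]
    push_cast
    rfl
  rw [← h2] at h1
  have h3 := Nat.div_add_mod N p
  have h4 := Nat.mod_lt N hp
  have h5 : 1 ≤ N / p := (Nat.one_le_div_iff hp).2 h
  set n := N / p with hn
  set r := N % p with hr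
  have h3' : (N : ℤ) = p * n + r := by exact_mod_cast h3.symm
  have h6 : 16 * (p : ℤ) * (pairs N p).card ≤ N * (9 * N - 8 * p) := by
    have h7 : 16 * (p : ℤ) * (pairs N p).card = 8 * p * (n * (n - 1) * p + 2 * n * r) := by
      rw [← h1]; ring
    rw [h7, h3']
    have h8 : (1 : ℤ) ≤ n := by exact_mod_cast h5
    have h9 : (0 : ℤ) ≤ r := by positivity
    have h10 : (0 : ℤ) < p := by exact_mod_cast hp
    have h11 : (p : ℤ) + r ≤ p * n + r := by nlinarith
    have h12 : ((p : ℤ) + r) ^ 2 ≤ (p * n + r) ^ 2 := by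
      apply pow_le_pow_left₀ (by positivity) h11
    nlinarith [sq_nonneg ((p : ℤ) - 3 * r)]
  exact_mod_cast h6

theorem pairs_eq_zero (N p : ℕ) (h : N ≤ p) : (pairs N p).card = 0 := by
  rw [Finset.card_eq_zero, pairs, Finset.filter_eq_empty_iff]
  rintro ⟨i, j⟩ - ⟨h1, h2⟩
  have hi := i.2
  have hj := j.2
  simp only [Fin.lt_def] at h1
  simp only at h2
  rw [Nat.mod_eq_of_lt (by omega), Nat.mod_eq_of_lt (by omega)] at h2
  omega

end Pool.Agent.SCB
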