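import Pool.Agent.SCB.Lines
import Pool.Agent.H47.SE.Cells

/-!
Project StrongCoupling (MP_2d9608_mp): a lattice of sites which misses a symmetric set.
-/

set_option autoImplicit false

open MeasureTheory H47.SE
open scoped ENNReal

namespace Pool.Agent.SCB

/-- A cyclic subgroup of order `p` of the torus of side `L` which misses `D`. -/
theorem exists_sites {D D' : Set E3} (hfin : volume D' ≠ ∞) (hsym : ∀ x ∈ D, -x ∈ D)
    {L : ℝ} (hL : 0 < L) {p : ℕ} (hp : p.Prime) (hp2 : p ≠ 2)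
    (hsub : ∀ x ∈ D, ∀ z : E3, (∀ a, |z a - x a| ≤ L / p) → z ∈ D')
    (hvol : p * volume.real D' ≤ 2 * L ^ 3) (hbd : ∀ x ∈ D, ∀ a, |x a| < L) :
    ∃ X : Fin 3 → ℤ, ∀ (j : ℤ) (n : Fin 3 → ℤ),
      latt (L / p) (fun a => j * X a + p * n a) ∈ D →
        (p : ℤ) ∣ j ∧ ∀ a, j * X a + p * n a = 0 := by
  classical
  have : Fact p.Prime := ⟨hp⟩
  have hp0 : (0 : ℝ) < p := by exact_mod_cast hp.pos
  set h : ℝ := L / p with hh
  have hh0 : 0 < h := by positivity
  have : Fact (0 < h) := ⟨hh0⟩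
  set B : Finset (Fin 3 → ZMod p) := Finset.univ.filter fun b => b ≠ 0 ∧
    ∃ y : Fin 3 → ℤ, (fun a => (y a : ZMod p)) = b ∧ latt h y ∈ D with hBdef
  have hmemB : ∀ b, b ∈ B ↔ b ≠ 0 ∧
      ∃ y : Fin 3 → ℤ, (fun a => (y a : ZMod p)) = b ∧ latt h y ∈ D := fun b => by
    rw [hBdef, Finset.mem_filter]
    simp
  have hB : ∀ y ∈ B, -y ∈ B := by
    intro b hb
    rw [hmemB] at hb ⊢
    obtain ⟨hb0, y, hy, hyD⟩ := hb
    refine ⟨neg_ne_zero.2 hb0, -y, ?_, ?_⟩
    · rw [← hy]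
      ext a
      simp
    · rw [latt_neg]
      exact hsym _ hyD
  have hB0 : (0 : Fin 3 → ZMod p) ∉ B := fun h0 => ((hmemB 0).1 h0).1 rfl
  have hcard : B.card ≤ 2 * p ^ 2 := by
    have hch : ∀ b : B, ∃ y : Fin 3 → ℤ, (fun a => (y a : ZMod p)) = b.1 ∧ latt h y ∈ D :=
      fun b => ((hmemB b.1).1 b.2).2
    choose y hy hyD using hch
    have hinj : Function.Injective y := by
      intro b b' hbb
      apply Subtype.ext
      rw [← hy b, ← hy b', hbb]
    have h1 : volume (⋃ b : B, cellAt h (y b)) ≤ volume D' := by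
      apply measure_mono
      intro z hz
      rw [Set.mem_iUnion] at hz
      obtain ⟨b, hb⟩ := hz
      refine hsub _ (hyD b) z fun a => ?_
      have h2 := hb a
      simp only [PiLp.sub_apply, Set.mem_Ioc] at h2
      rw [abs_of_pos h2.1]
      exact h2.2
    have h3 : volume (⋃ b : B, cellAt h (y b)) = ∑' b : B, volume (cellAt h (y b)) := by
      refine measure_iUnion (fun b b' hbb => ?_) fun b => measurableSet_cellAt _ _
      exact disjoint_cellAt h (fun hc => hbb (hinj hc))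
    rw [h3, tsum_fintype] at h1
    simp_rw [volume_cellAt hh0] at h1
    rw [Finset.sum_const, Finset.card_univ, Fintype.card_coe, nsmul_eq_mul] at h1
    have h4 : (B.card : ℝ) * h ^ 3 ≤ volume.real D' := by
      have h5 := ENNReal.toReal_mono hfin h1
      rw [ENNReal.toReal_mul, ENNReal.toReal_natCast, ENNReal.toReal_ofReal (by positivity)] at h5
      exact h5
    have h6 : (B.card : ℝ) ≤ 2 * p ^ 2 := by
      have h7 : (B.card : ℝ) * L ^ 3 ≤ 2 * p ^ 2 * L ^ 3 := by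
        calc (B.card : ℝ) * L ^ 3 = (B.card : ℝ) * h ^ 3 * p ^ 3 := by
              rw [hh]; field_simp
          _ ≤ volume.real D' * p ^ 3 := by gcongr
          _ = (p * volume.real D') * p ^ 2 := by ring
          _ ≤ (2 * L ^ 3) * p ^ 2 := by gcongr
          _ = 2 * p ^ 2 * L ^ 3 := by ring
      exact le_of_mul_le_mul_right h7 (by positivity)
    exact_mod_cast h6
  obtain ⟨x, hx0, hx⟩ := exists_line p hp2 B hB hB0 hcard
  refine ⟨fun a => ((x a).val : ℤ), fun j n hD => ?_⟩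
  have hred : (fun a => (((j * ((x a).val : ℤ) + p * n a : ℤ)) : ZMod p)) = (j : ZMod p) • x := by
    ext a
    push_cast
    rw [ZMod.natCast_self, zero_mul, add_zero, ZMod.natCast_zmod_val, Pi.smul_apply, smul_eq_mul]
  have hj : (j : ZMod p) = 0 := by
    by_contra hj0
    apply hx _ hj0
    rw [hmemB]
    refine ⟨smul_ne_zero hj0 hx0, _, hred, hD⟩
  have hj' : (p : ℤ) ∣ j := (ZMod.intCast_zmod_eq_zero_iff_dvd j p).1 hj
  refine ⟨hj', fun a => ?_⟩
  obtain ⟨i, rfl⟩ := hj'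
  have h8 := hbd _ hD a
  rw [latt_apply] at h8
  have h9 : h * ((((p : ℤ) * i * ((x a).val : ℤ) + p * n a : ℤ)) : ℝ) =
      L * ((i * ((x a).val : ℤ) + n a : ℤ) : ℝ) := by
    rw [hh]
    push_cast
    field_simp
  rw [h9, abs_mul, abs_of_pos hL] at h8
  have h10 : |((i * ((x a).val : ℤ) + n a : ℤ) : ℝ)| < 1 := by
    by_contra hc
    push Not at hc
    nlinarith
  have h11 : |(i * ((x a).val : ℤ) + n a : ℤ)| < 1 := by exact_mod_cast h10
  rw [Int.abs_lt_one_iff] at h11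
  calc (p : ℤ) * i * ((x a).val : ℤ) + p * n a = p * (i * ((x a).val : ℤ) + n a) := by ring
    _ = 0 := by rw [h11, mul_zero]

end Pool.Agent.SCB
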