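import Pool.Agent.SCB.Bump
import Pool.Agent.SCB.Pairs
import Pool.Agent.SCB.Sites

/-!
Project StrongCoupling (MP_2d9608_mp): the energy of bumps at the sites.
-/

set_option autoImplicit false

open MeasureTheory H47.SE Metric
open scoped ENNReal Topology

namespace Pool.Agent.SCB

variable {L : ℝ}

/-- the site of particle `k` -/
noncomputable def site (L : ℝ) (p : ℕ) (X : Fin 3 → ℤ) (k : ℕ) : E3 :=
  latt (L / p) (fun a => ((k % p : ℕ) : ℤ) * X a)

/-- the sites are separated by `D` -/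
def Good (L : ℝ) (p : ℕ) (X : Fin 3 → ℤ) (D : Set E3) : Prop :=
  ∀ (j : ℤ) (n : Fin 3 → ℤ), latt (L / p) (fun a => j * X a + p * n a) ∈ D →
    (p : ℤ) ∣ j ∧ ∀ a, j * X a + p * n a = 0

theorem site_sub {p : ℕ} (hp : 0 < p) (X : Fin 3 → ℤ) (k l : ℕ) (n : Fin 3 → ℤ) :
    site L p X k - site L p X l + latt L n =
      latt (L / p) (fun a => (((k % p : ℕ) : ℤ) - ((l % p : ℕ) : ℤ)) * X a + p * n a) := by
  have hp' : (p : ℝ) ≠ 0 := by exact_mod_cast hp.ne'
  ext a
  simp only [site, PiLp.add_apply, PiLp.sub_apply, latt_apply]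
  push_cast
  field_simp

theorem key {C₀ : Set E3} {ε r : ℝ} {p : ℕ} {X : Fin 3 → ℤ}
    (hG : Good L p X (cthickening ε C₀)) (hp : 0 < p) (h2r : 2 * r ≤ ε) {k l : ℕ} {x y : E3}
    {n₁ n₂ n : Fin 3 → ℤ} (hx : x + latt L n₁ ∈ ball (site L p X k) r)
    (hy : y + latt L n₂ ∈ ball (site L p X l) r) (hc : x - y + latt L n ∈ C₀) :
    k % p = l % p ∧ n = n₁ - n₂ := by
  have h1 : site L p X k - site L p X l + latt L (n - (n₁ - n₂)) ∈ cthickening ε C₀ := by
    refine mem_cthickening_of_dist_le _ _ _ _ hc ?_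
    rw [dist_eq_norm, latt_sub', latt_sub']
    have e : site L p X k - site L p X l + (latt L n - (latt L n₁ - latt L n₂)) -
        (x - y + latt L n) = (site L p X k - (x + latt L n₁)) -
        (site L p X l - (y + latt L n₂)) := by abel
    rw [e]
    rw [mem_ball, dist_comm, dist_eq_norm] at hx hy
    refine (norm_sub_le _ _).trans ?_
    linarith
  rw [site_sub hp] at h1
  obtain ⟨h2, h3⟩ := hG _ _ h1
  have h4 : ((k % p : ℕ) : ℤ) - ((l % p : ℕ) : ℤ) = 0 := by
    refine Int.eq_zero_of_abs_lt_dvd h2 ?_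
    have a1 : k % p < p := Nat.mod_lt _ hp
    have a2 : l % p < p := Nat.mod_lt _ hp
    rw [abs_lt]
    constructor <;> omega
  refine ⟨by omega, ?_⟩
  rw [h4] at h3
  rw [← sub_eq_zero]
  funext a
  have h5 := h3 a
  rw [zero_mul, zero_add, mul_eq_zero] at h5
  rcases h5 with h5 | h5
  · exact absurd h5 (by exact_mod_cast hp.ne')
  · exact h5

theorem exists_of_dn_ne {z : E3} {r : ℝ} {b : E3 → ℝ} (hb : BP z r b) {x : E3}
    (h : dn L (perPot b L) x ≠ 0) : ∃ n, x + latt L n ∈ ball z r := by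
  by_contra h1
  push Not at h1
  apply h
  unfold dn
  have h2 : perPot b L x = 0 := by
    unfold perPot
    simp_rw [hb.zero (h1 _)]
    exact tsum_zero
  rw [h2]
  ring

theorem g_pair [hL : Fact (0 < L)] {C₀ : Set E3} {ε r : ℝ} {p : ℕ} {X : Fin 3 → ℤ}
    (hG : Good L p X (cthickening ε C₀)) (hp : 0 < p) (h2r : 2 * r ≤ ε) {b : E3 → ℝ}
    (hb : BP 0 r b) {g : E3 → ℝ} (hg1 : ∀ x, g x ≤ 1)
    (hgC : ∀ x ∉ C₀, g x = 0) (k l : ℕ) (x y : E3) :
    perPot g L (x - y) * (dn L (perPot (fun u => b (u - site L p X k)) L) x *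
      dn L (perPot (fun u => b (u - site L p X l)) L) y) ≤
    (if k % p = l % p then 1 else 0) *
      (dn L (perPot (fun u => b (u - site L p X k)) L) x *
      dn L (perPot (fun u => b (u - site L p X l)) L) y) := by
  by_cases hk : dn L (perPot (fun u => b (u - site L p X k)) L) x = 0
  · rw [hk]; simp
  by_cases hl : dn L (perPot (fun u => b (u - site L p X l)) L) y = 0
  · rw [hl]; simp
  obtain ⟨n₁, hn₁⟩ := exists_of_dn_ne (hb.shift _) hk
  obtain ⟨n₂, hn₂⟩ := exists_of_dn_ne (hb.shift _) hl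
  refine mul_le_mul_of_nonneg_right ?_ (mul_nonneg (dn_nonneg _ _) (dn_nonneg _ _))
  by_cases hkl : k % p = l % p
  · rw [if_pos hkl]
    have h1 : perPot g L (x - y) = g (x - y + latt L (n₁ - n₂)) := by
      refine tsum_eq_single _ fun n hn => ?_
      by_contra h2
      have h3 : x - y + latt L n ∈ C₀ := by
        by_contra h4
        exact h2 (hgC _ h4)
      exact hn (key hG hp h2r hn₁ hn₂ h3).2
    rw [h1]
    exact hg1 _
  · rw [if_neg hkl]
    have h1 : perPot g L (x - y) = 0 := by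
      unfold perPot
      refine (tsum_congr fun n => ?_).trans tsum_zero
      by_contra h2
      have h3 : x - y + latt L n ∈ C₀ := by
        by_contra h4
        exact h2 (hgC _ h4)
      exact hkl (key hG hp h2r hn₁ hn₂ h3).1
    rw [h1]

theorem perPot_split {g v : E3 → ℝ} {K : ℝ} (hK : 0 < K) (hg0 : ∀ x, 0 ≤ g x)
    (hKv : ∀ x, K * g x ≤ v x) (x : E3) :
    perPot v L x ≤ K * perPot g L x + perPot (fun y => v y - K * g y) L x := by
  by_cases hs : Summable fun n : Fin 3 → ℤ => v (x + latt L n)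
  · have h1 : Summable fun n : Fin 3 → ℤ => K * g (x + latt L n) :=
      Summable.of_nonneg_of_le (fun n => mul_nonneg hK.le (hg0 _)) (fun n => hKv _) hs
    unfold perPot
    rw [← tsum_mul_left, ← h1.tsum_add (hs.sub h1)]
    refine le_of_eq ?_
    congr 1
    funext n
    ring
  · have h1 : perPot v L x = 0 := tsum_eq_zero_of_not_summable hs
    rw [h1]
    exact add_nonneg (mul_nonneg hK.le (perPot_nonneg hg0 L x))
      (perPot_nonneg (fun y => sub_nonneg.2 (hKv y)) L x)

theorem BP.dn_le [hL : Fact (0 < L)] {z : E3} {r : ℝ} {b : E3 → ℝ} (hb : BP z r b)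
    (hr : 0 < r) (h4 : 4 * r ≤ L) {M : ℝ} (hM : ∀ x, b x ^ 2 ≤ M) (x : E3) :
    dn L (perPot b L) x ≤ L ^ 3 * M := by
  have h3 : 0 < L ^ 3 := by have := hL.out; positivity
  unfold dn
  refine mul_le_mul_of_nonneg_left ?_ h3.le
  obtain ⟨n₀, hn⟩ := exists_unique_translate hL.out h4 z x
  rw [perPot_near hn (fun y hy => hb.zero hy) (mem_ball_self hr)]
  exact hM _

theorem card_residue (N p j : ℕ) :
    ((Finset.univ.filter fun k : Fin N => (k : ℕ) % p = j).card : ℝ) ≤ (N : ℝ) / p + 1 := by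
  have h1 : (Finset.univ.filter fun k : Fin N => (k : ℕ) % p = j).card ≤
      (Finset.range (N / p + 1)).card := by
    refine Finset.card_le_card_of_injOn (fun k => (k : ℕ) / p) ?_ ?_
    · intro k _
      simp only [Finset.coe_range, Set.mem_Iio]
      exact Nat.lt_succ_of_le (Nat.div_le_div_right k.2.le)
    · intro k hk l hl h
      simp only [Finset.coe_filter, Finset.mem_univ, true_and, Set.mem_ofPred_eq] at hk hl
      simp only at h
      apply Fin.ext
      rw [← Nat.div_add_mod (k : ℕ) p, ← Nat.div_add_mod (l : ℕ) p, hk, hl, h]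
  rw [Finset.card_range] at h1
  calc ((Finset.univ.filter fun k : Fin N => (k : ℕ) % p = j).card : ℝ)
      ≤ ((N / p + 1 : ℕ) : ℝ) := by exact_mod_cast h1
    _ = ((N / p : ℕ) : ℝ) + 1 := by push_cast; ring
    _ ≤ (N : ℝ) / p + 1 := by
      have := @Nat.cast_div_le ℝ _ _ _ N p
      linarith

theorem sum_dn_le [hL : Fact (0 < L)] {C₀ : Set E3} (h0 : (0 : E3) ∈ C₀) {ε r : ℝ}
    (hr : 0 < r) (h2r : 2 * r ≤ ε) (h4 : 4 * r ≤ L) {p : ℕ} (hp : 0 < p) {X : Fin 3 → ℤ}
    (hG : Good L p X (cthickening ε C₀)) {b : E3 → ℝ} (hb : BP 0 r b) {M : ℝ}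
    (hM : ∀ x, b x ^ 2 ≤ M) (N : ℕ) (x : E3) :
    ∑ k : Fin N, dn L (perPot (fun u => b (u - site L p X k)) L) x ≤
      L ^ 3 * M * ((N : ℝ) / p + 1) := by
  have h3 : 0 < L ^ 3 := by have := hL.out; positivity
  have hM0 : 0 ≤ M := (sq_nonneg (b 0)).trans (hM 0)
  have hB : 0 ≤ L ^ 3 * M := mul_nonneg h3.le hM0
  by_cases h : ∃ k : Fin N, dn L (perPot (fun u => b (u - site L p X k)) L) x ≠ 0
  · obtain ⟨k₀, hk₀⟩ := h
    have h1 : ∑ k : Fin N, dn L (perPot (fun u => b (u - site L p X k)) L) x =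
        ∑ k ∈ Finset.univ.filter (fun k : Fin N => (k : ℕ) % p = (k₀ : ℕ) % p),
          dn L (perPot (fun u => b (u - site L p X k)) L) x := by
      symm
      refine Finset.sum_subset (Finset.filter_subset _ _) fun k _ hk => ?_
      by_contra hne
      apply hk
      rw [Finset.mem_filter]
      refine ⟨Finset.mem_univ _, ?_⟩
      obtain ⟨n₁, hn₁⟩ := exists_of_dn_ne (hb.shift _) hne
      obtain ⟨n₂, hn₂⟩ := exists_of_dn_ne (hb.shift _) hk₀
      refine (key hG hp h2r (n := 0) hn₁ hn₂ ?_).1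
      have e : x - x + latt L 0 = 0 := by
        ext a
        simp [latt_apply]
      rw [e]
      exact h0
    rw [h1]
    refine (Finset.sum_le_card_nsmul _ _ (L ^ 3 * M) fun k _ =>
      (hb.shift _).dn_le hr h4 (fun y => hM _) x).trans ?_
    rw [nsmul_eq_mul, mul_comm]
    exact mul_le_mul_of_nonneg_left (card_residue N p _) hB
  · push Not at h
    rw [Finset.sum_eq_zero fun k _ => h k]
    positivity

/-- weighted pair integral -/
theorem integral_wdn [hL : Fact (0 < L)] {w : E3 → ℝ} (hw : ∀ x, 0 ≤ w x)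
    (hwm : Measurable w) (hwp : ∀ x n, w (x + latt L n) = w x) (hwi : Integrable w (unif L))
    {f : E3 → ℝ} (hf : PF L f) {B : ℝ} (hB : ∀ x, dn L f x ≤ B) :
    Integrable (fun z : E3 × E3 => w (z.1 - z.2) * dn L f z.2) ((unif L).prod (unif L)) ∧
    ∫ z : E3 × E3, w (z.1 - z.2) * dn L f z.2 ∂((unif L).prod (unif L)) =
      ∫ x, w x ∂(unif L) := by
  have hi := (integrable_diff hw hwm hwp hwi 0).1
  simp only [add_zero] at hi
  have hi2 : Integrable (fun z : E3 × E3 => w (z.1 - z.2) * dn L f z.2)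
      ((unif L).prod (unif L)) := by
    refine hi.mul_bdd (c := B) ?_ ?_
    · exact (hf.continuous_dn.comp continuous_snd).aestronglyMeasurable
    · filter_upwards with z
      rw [Real.norm_eq_abs, abs_of_nonneg (dn_nonneg _ _)]
      exact hB _
  refine ⟨hi2, ?_⟩
  rw [integral_prod_symm _ hi2]
  simp only
  simp_rw [integral_mul_const]
  have e : ∀ y, ∫ x, w (x - y) ∂(unif L) = ∫ x, w x ∂(unif L) := by
    intro y
    simp_rw [sub_eq_add_neg]
    exact unif_shift hwp hwm.stronglyMeasurable (-y)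
  simp_rw [e]
  rw [integral_const_mul, hf.integral_dn, mul_one]

theorem integrable_wdd [hL : Fact (0 < L)] {w : E3 → ℝ} (hw : ∀ x, 0 ≤ w x)
    (hwm : Measurable w) (hwp : ∀ x n, w (x + latt L n) = w x) (hwi : Integrable w (unif L))
    {f f' : E3 → ℝ} (hf : PF L f) (hf' : PF L f') {B : ℝ} (hB : ∀ x, dn L f x ≤ B)
    (hB' : ∀ x, dn L f' x ≤ B) :
    Integrable (fun z : E3 × E3 => w (z.1 - z.2) * (dn L f z.1 * dn L f' z.2))
      ((unif L).prod (unif L)) := by
  have hi := (integral_wdn hw hwm hwp hwi hf' hB').1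
  have h2 : Integrable (fun z : E3 × E3 => w (z.1 - z.2) * dn L f' z.2 * dn L f z.1)
      ((unif L).prod (unif L)) := by
    refine hi.mul_bdd (c := B) ?_ ?_
    · exact (hf.continuous_dn.comp continuous_fst).aestronglyMeasurable
    · filter_upwards with z
      rw [Real.norm_eq_abs, abs_of_nonneg (dn_nonneg _ _)]
      exact hB _
  refine h2.congr ?_
  filter_upwards with z
  ring

/-- the rest of the interaction -/
theorem rest_le [hL : Fact (0 < L)] {N : ℕ} {w : E3 → ℝ} (hw : ∀ x, 0 ≤ w x)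
    (hwm : Measurable w) (hwp : ∀ x n, w (x + latt L n) = w x) (hwi : Integrable w (unif L))
    {f : Fin N → E3 → ℝ} (hf : ∀ i, PF L (f i)) {B H : ℝ} (hB : ∀ i x, dn L (f i) x ≤ B)
    (hH : ∀ x, ∑ i, dn L (f i) x ≤ H) :
    ∑ q : Fin N × Fin N, (if q.1 < q.2 then
      ∫ z : E3 × E3, w (z.1 - z.2) * (dn L (f q.1) z.1 * dn L (f q.2) z.2)
        ∂((unif L).prod (unif L)) else 0) ≤ N * (H * ∫ x, w x ∂(unif L)) := by
  have hI : ∀ q : Fin N × Fin N,
      0 ≤ ∫ z : E3 × E3, w (z.1 - z.2) * (dn L (f q.1) z.1 * dn L (f q.2) z.2)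
        ∂((unif L).prod (unif L)) := fun q => integral_nonneg fun z =>
    mul_nonneg (hw _) (mul_nonneg (dn_nonneg _ _) (dn_nonneg _ _))
  calc ∑ q : Fin N × Fin N, (if q.1 < q.2 then
      ∫ z : E3 × E3, w (z.1 - z.2) * (dn L (f q.1) z.1 * dn L (f q.2) z.2)
        ∂((unif L).prod (unif L)) else 0)
      ≤ ∑ q : Fin N × Fin N,
      ∫ z : E3 × E3, w (z.1 - z.2) * (dn L (f q.1) z.1 * dn L (f q.2) z.2)
        ∂((unif L).prod (unif L)) := by
        refine Finset.sum_le_sum fun q _ => ?_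
        split_ifs
        · exact le_rfl
        · exact hI q
    _ = ∑ l : Fin N, ∑ k : Fin N,
      ∫ z : E3 × E3, w (z.1 - z.2) * (dn L (f k) z.1 * dn L (f l) z.2)
        ∂((unif L).prod (unif L)) := by
        rw [← Finset.univ_product_univ, Finset.sum_product_right]
    _ ≤ ∑ _l : Fin N, H * ∫ x, w x ∂(unif L) := by
        refine Finset.sum_le_sum fun l _ => ?_
        rw [← integral_finsetSum _ fun k _ =>
          integrable_wdd hw hwm hwp hwi (hf k) (hf l) (hB k) (hB l)]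
        obtain ⟨a1, a2⟩ := integral_wdn hw hwm hwp hwi (hf l) (hB l)
        rw [← a2, ← integral_const_mul]
        refine integral_mono (integrable_finsetSum _ fun k _ =>
          integrable_wdd hw hwm hwp hwi (hf k) (hf l) (hB k) (hB l)) (a1.const_mul H) fun z => ?_
        simp only
        rw [← Finset.mul_sum, ← Finset.sum_mul]
        have h1 := mul_le_mul_of_nonneg_right (hH z.1)
          (mul_nonneg (hw (z.1 - z.2)) (dn_nonneg (L := L) (f l) z.2))
        linarith
    _ = N * (H * ∫ x, w x ∂(unif L)) := by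
        rw [Finset.sum_const, Finset.card_univ, Fintype.card_fin, nsmul_eq_mul]

theorem integral_dd [hL : Fact (0 < L)] {f f' : E3 → ℝ} (hf : PF L f) (hf' : PF L f') :
    Integrable (fun z : E3 × E3 => dn L f z.1 * dn L f' z.2) ((unif L).prod (unif L)) ∧
    ∫ z : E3 × E3, dn L f z.1 * dn L f' z.2 ∂((unif L).prod (unif L)) = 1 := by
  refine ⟨hf.integrable_dn.mul_prod hf'.integrable_dn, ?_⟩
  rw [integral_prod_mul, hf.integral_dn, hf'.integral_dn, mul_one]

/-- The energy of `N` bumps at `p` sites. -/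
theorem upper_torus [hL : Fact (0 < L)] {C₀ : Set E3} (h0 : (0 : E3) ∈ C₀) {ε r : ℝ}
    (hr : 0 < r) (h2r : 2 * r ≤ ε) (h4 : 4 * r ≤ L) {p : ℕ} (hp : 0 < p) {X : Fin 3 → ℤ}
    (hG : Good L p X (cthickening ε C₀)) {b : E3 → ℝ} (hb : BP 0 r b) {M : ℝ}
    (hM : ∀ x, b x ^ 2 ≤ M) {g v : E3 → ℝ} (hg0 : ∀ x, 0 ≤ g x) (hg1 : ∀ x, g x ≤ 1)
    (hgC : ∀ x ∉ C₀, g x = 0) (hgm : Measurable g) (hgi : Integrable g) {m K : ℝ}
    (hm : 0 < m) (hK : 0 < K) (hvm : Measurable v) (hvi : Integrable v)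
    (hKv : ∀ x, K * g x ≤ v x) (N : ℕ) :
    groundEnergy m (perPot v L) N L ≤
      1 / (2 * m) * (N * ∑ a, ∫ x, (fderiv ℝ b x (ea a)) ^ 2) + K * (pairs N p).card +
        N * (M * ((N : ℝ) / p + 1) * ∫ x, (v x - K * g x)) := by
  have h3 : 0 < L ^ 3 := by have := hL.out; positivity
  set f : Fin N → E3 → ℝ := fun k => perPot (fun u => b (u - site L p X k)) L with hf
  have hPF : ∀ i, PF L (f i) := fun i => (hb.shift _).pf hr h4
  have hv0 : ∀ x, 0 ≤ v x := fun x => (mul_nonneg hK.le (hg0 x)).trans (hKv x)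
  set w : E3 → ℝ := fun y => v y - K * g y with hw
  have hw0 : ∀ x, 0 ≤ w x := fun x => sub_nonneg.2 (hKv x)
  have hwm : Measurable w := hvm.sub (hgm.const_mul K)
  have hwi : Integrable w := hvi.sub (hgi.const_mul K)
  have hpm := measurable_perPot hw0 hwm L
  have hpi : Integrable (perPot w L) (unif L) := integrable_perPot hw0 hwm hwi
  have hB : ∀ i x, dn L (f i) x ≤ L ^ 3 * M := fun i x =>
    (hb.shift _).dn_le hr h4 (fun y => hM _) x
  have h5 := prod_energy hm (perPot_nonneg hv0 L) (measurable_perPot hv0 hvm L) hPF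
  refine h5.trans ?_
  rw [add_assoc]
  refine add_le_add (le_of_eq ?_) ?_
  · congr 1
    have h6 : ∀ i : Fin N, ∑ a, ∫ x in cell L, (fderiv ℝ (f i) x (ea a)) ^ 2 =
        ∑ a, ∫ x, (fderiv ℝ b x (ea a)) ^ 2 := by
      intro i
      refine Finset.sum_congr rfl fun a _ => ?_
      rw [hf]
      simp only
      rw [(hb.shift _).kin hr h4]
      have h7 : ∀ x, fderiv ℝ (fun u => b (u - site L p X i)) x =
          fderiv ℝ b (x - site L p X i) := fun x =>
        fderiv_comp_sub (f := b) (x := x) (site L p X i)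
      simp_rw [h7]
      exact integral_sub_right_eq_self (fun x => (fderiv ℝ b x (ea a)) ^ 2) _
    simp_rw [h6]
    rw [Finset.sum_const, Finset.card_univ, Fintype.card_fin, nsmul_eq_mul]
  · have h8 := rest_le (perPot_nonneg hw0 L) hpm (perPot_periodic w L) hpi hPF hB
      (sum_dn_le h0 hr h2r h4 hp hG hb hM N)
    have h9 : ∫ x, perPot w L x ∂(unif L) = (L ^ 3)⁻¹ * ∫ x, w x := by
      rw [integral_unif, unfold_real hwi, smul_eq_mul]
    rw [h9] at h8
    have h10 : N * (L ^ 3 * M * ((N : ℝ) / p + 1) * ((L ^ 3)⁻¹ * ∫ x, w x)) =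
        N * (M * ((N : ℝ) / p + 1) * ∫ x, w x) := by
      have e1 : L ^ 3 * (L ^ 3)⁻¹ = 1 := mul_inv_cancel₀ h3.ne'
      calc _ = N * (M * ((N : ℝ) / p + 1) * ∫ x, w x) * (L ^ 3 * (L ^ 3)⁻¹) := by ring
        _ = _ := by rw [e1, mul_one]
    rw [h10] at h8
    refine le_trans ?_ (add_le_add_right h8 (K * (pairs N p).card))
    have h11 : K * ((pairs N p).card : ℝ) = ∑ q : Fin N × Fin N, if q.1 < q.2 then
        (K * if (q.1 : ℕ) % p = (q.2 : ℕ) % p then (1 : ℝ) else 0) else 0 := by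
      rw [pairs, Finset.card_filter]
      push_cast
      rw [Finset.mul_sum]
      refine Finset.sum_congr rfl fun q _ => ?_
      by_cases a1 : q.1 < q.2 <;> by_cases a2 : (q.1 : ℕ) % p = (q.2 : ℕ) % p <;>
        simp [a1, a2]
    rw [h11, ← Finset.sum_add_distrib]
    refine Finset.sum_le_sum fun q _ => ?_
    by_cases h12 : q.1 < q.2
    · rw [if_pos h12, if_pos h12, if_pos h12]
      obtain ⟨a1, a2⟩ := integral_dd (hPF q.1) (hPF q.2)
      have a3 := integrable_wdd (perPot_nonneg hw0 L) hpm (perPot_periodic w L) hpi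
        (hPF q.1) (hPF q.2) (hB q.1) (hB q.2)
      set s : ℝ := if (q.1 : ℕ) % p = (q.2 : ℕ) % p then (1 : ℝ) else 0 with hs
      calc ∫ z : E3 × E3, perPot v L (z.1 - z.2) * (dn L (f q.1) z.1 * dn L (f q.2) z.2)
            ∂((unif L).prod (unif L))
          ≤ ∫ z : E3 × E3, (K * s * (dn L (f q.1) z.1 * dn L (f q.2) z.2) +
            perPot w L (z.1 - z.2) * (dn L (f q.1) z.1 * dn L (f q.2) z.2))
            ∂((unif L).prod (unif L)) := by
            refine integral_mono_of_nonneg ?_ ((a1.const_mul (K * s)).add a3) ?_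
            · filter_upwards with z
              exact mul_nonneg (perPot_nonneg hv0 L _) (mul_nonneg (dn_nonneg _ _)
                (dn_nonneg _ _))
            · filter_upwards with z
              have b1 := perPot_split (L := L) hK hg0 hKv (z.1 - z.2)
              have b2 := g_pair hG hp h2r hb hg1 hgC q.1 q.2 z.1 z.2
              have b3 : 0 ≤ dn L (f q.1) z.1 * dn L (f q.2) z.2 :=
                mul_nonneg (dn_nonneg _ _) (dn_nonneg _ _)
              have b4 := mul_le_mul_of_nonneg_right b1 b3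
              have b5 := mul_le_mul_of_nonneg_left b2 hK.le
              calc _ ≤ _ := b4
                _ = K * (perPot g L (z.1 - z.2) * (dn L (f q.1) z.1 * dn L (f q.2) z.2)) +
                  perPot w L (z.1 - z.2) * (dn L (f q.1) z.1 * dn L (f q.2) z.2) := by ring
                _ ≤ K * (s * (dn L (f q.1) z.1 * dn L (f q.2) z.2)) +
                  perPot w L (z.1 - z.2) * (dn L (f q.1) z.1 * dn L (f q.2) z.2) :=
                  add_le_add_left b5 _
                _ = _ := by ring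
        _ = K * s + ∫ z : E3 × E3, perPot w L (z.1 - z.2) *
            (dn L (f q.1) z.1 * dn L (f q.2) z.2) ∂((unif L).prod (unif L)) := by
            rw [integral_add (a1.const_mul _) a3, integral_const_mul, a2, mul_one]
    · rw [if_neg h12, if_neg h12, if_neg h12, add_zero]

end Pool.Agent.SCB
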