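import Pool.Agent.SCB.Inter
import Pool.Agent.H47.SE.NonPosMain

/-!
Project StrongCoupling (MP_2d9608_mp): the upper bound in the thermodynamic limit.
-/

set_option autoImplicit false

open MeasureTheory H47.SE Metric Filter
open scoped ENNReal Topology

namespace Pool.Agent.SCB

theorem norm_le_of_coord {z : E3} {h : ℝ} (hh : 0 ≤ h) (hz : ∀ a, |z a| ≤ h) : ‖z‖ ≤ 2 * h := by
  rw [EuclideanSpace.norm_eq]
  refine Real.sqrt_le_iff.2 ⟨by positivity, ?_⟩
  calc ∑ a, ‖z a‖ ^ 2 ≤ ∑ _a : Fin 3, h ^ 2 := by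
        refine Finset.sum_le_sum fun a _ => ?_
        rw [Real.norm_eq_abs]
        exact pow_le_pow_left₀ (abs_nonneg _) (hz a) 2
    _ = 3 * h ^ 2 := by simp
    _ ≤ (2 * h) ^ 2 := by nlinarith [sq_nonneg h]

/-- the sites for large primes -/
theorem sites_at {C : Set E3} (hC : IsCompact C) (hsym : ∀ x ∈ C, -x ∈ C) {ε : ℝ} (hε : 0 < ε)
    {L : ℝ} (hL : 0 < L) {p : ℕ} (hp : p.Prime) (hp2 : p ≠ 2)
    (hsmall : 2 * (L / p) ≤ ε) (hvol : p * volume.real (cthickening (2 * ε) C) ≤ 2 * L ^ 3)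
    (hbd : ∀ x ∈ cthickening ε C, ‖x‖ < L) :
    ∃ X : Fin 3 → ℤ, Good L p X (cthickening ε C) := by
  have hp0 : (0 : ℝ) < p := by exact_mod_cast hp.pos
  refine exists_sites (D := cthickening ε C) (D' := cthickening (2 * ε) C) ?_ ?_ hL hp hp2
    ?_ hvol ?_
  · exact hC.cthickening.measure_lt_top.ne
  · intro x hx
    rw [hC.cthickening_eq_biUnion_closedBall hε.le, Set.mem_iUnion₂] at hx ⊢
    obtain ⟨y, hy, hxy⟩ := hx
    refine ⟨-y, hsym y hy, ?_⟩
    rw [mem_closedBall, dist_eq_norm] at hxy ⊢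
    rwa [neg_sub_neg, norm_sub_rev]
  · intro x hx z hz
    rw [hC.cthickening_eq_biUnion_closedBall hε.le, Set.mem_iUnion₂] at hx
    rw [hC.cthickening_eq_biUnion_closedBall (by positivity), Set.mem_iUnion₂]
    obtain ⟨y, hy, hxy⟩ := hx
    refine ⟨y, hy, ?_⟩
    rw [mem_closedBall] at hxy ⊢
    have h1 : dist z x ≤ ε := by
      rw [dist_eq_norm]
      exact (norm_le_of_coord (div_nonneg hL.le hp0.le) fun a => by
        simpa using hz a).trans hsmall
    linarith [dist_triangle z x y]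
  · intro x hx a
    refine lt_of_le_of_lt ?_ (hbd x hx)
    rw [← Real.norm_eq_abs]
    exact PiLp.norm_apply_le _ _

theorem limit_le {C : Set E3} (hC : IsCompact C) (hsym : ∀ x ∈ C, -x ∈ C) (h0 : (0 : E3) ∈ C)
    {ε s : ℝ} (hε : 0 < ε) (hs : 0 < s) (hvol : s * volume.real (cthickening (2 * ε) C) ≤ 2)
    {b : E3 → ℝ} (hb : BP 0 (ε / 4) b) {M : ℝ} (hM : ∀ x, b x ^ 2 ≤ M) {g v : E3 → ℝ}
    (hg0 : ∀ x, 0 ≤ g x) (hg1 : ∀ x, g x ≤ 1) (hgC : ∀ x ∉ C, g x = 0) (hgm : Measurable g)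
    (hgi : Integrable g) {m K ρ : ℝ} (hm : 0 < m) (hK : 0 < K) (hρ : 0 < ρ) (hvm : Measurable v)
    (hvi : Integrable v) (hKv : ∀ x, K * g x ≤ v x) {E : ℕ → ℝ}
    (hE : ∀ N, 0 < N → E N ≤ groundEnergy m (perPot v (side ρ N)) N (side ρ N)) {e0 : ℝ}
    (he0 : Tendsto (fun N : ℕ => E N / N) atTop (𝓝 e0)) {P : ℝ}
    (hP : (ρ ≤ s ∧ P = 0) ∨ (s < ρ ∧ P = 9 / 16 * (ρ / s) - 1 / 2)) :
    e0 ≤ 1 / (2 * m) * (∑ a, ∫ x, (fderiv ℝ b x (ea a)) ^ 2) + K * P +
      M * (ρ / s + 1) * ∫ x, (v x - K * g x) := by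
  set ν := ρ / s with hν
  have hν0 : 0 < ν := div_pos hρ hs
  set T := ∑ a, ∫ x, (fderiv ℝ b x (ea a)) ^ 2 with hT
  set R := ∫ x, (v x - K * g x) with hR
  set Nf : ℕ → ℕ := fun p => ⌈ν * p⌉₊ with hNf
  have hNt : Tendsto Nf atTop atTop := by
    have h1 : Tendsto (fun p : ℕ => ν * (p : ℝ)) atTop atTop :=
      tendsto_natCast_atTop_atTop.const_mul_atTop hν0
    exact tendsto_nat_ceil_atTop.comp h1
  have hratio : Tendsto (fun p : ℕ => (Nf p : ℝ) / p) atTop (𝓝 ν) :=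
    (tendsto_nat_ceil_mul_div_atTop hν0.le).comp tendsto_natCast_atTop_atTop
  have hside : Tendsto (fun p => side ρ (Nf p)) atTop atTop := (tendsto_side hρ).comp hNt
  obtain ⟨RD, hRD⟩ := (hC.cthickening (r := ε)).isBounded.exists_norm_le
  -- the bound at a prime
  set G : ℕ → ℝ := fun p => 1 / (2 * m) * T + K * (if ρ ≤ s then 0 else
    9 / 16 * ((Nf p : ℝ) / p) - 1 / 2) + M * ((Nf p : ℝ) / p + 1) * R with hG
  have hGt : Tendsto G atTop (𝓝 (1 / (2 * m) * T + K * P + M * (ν + 1) * R)) := by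
    have h1 : Tendsto (fun p => if ρ ≤ s then (0 : ℝ) else
        9 / 16 * ((Nf p : ℝ) / p) - 1 / 2) atTop (𝓝 P) := by
      rcases hP with ⟨h1, h2⟩ | ⟨h1, h2⟩
      · simp only [if_pos h1]
        rw [h2]
        exact tendsto_const_nhds
      · simp only [if_neg (not_le.2 h1)]
        rw [h2]
        exact (hratio.const_mul _).sub_const _
    exact ((h1.const_mul K).const_add _).add (((hratio.add_const 1).const_mul M).mul_const R)
  refine le_of_tendsto_of_tendsto_of_frequently (he0.comp hNt) hGt ?_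
  have hprime : ∃ᶠ p : ℕ in atTop, p.Prime :=
    Nat.frequently_atTop_iff_infinite.2 Nat.infinite_setOfPred_prime
  refine (hprime.and_eventually ((eventually_gt_atTop 2).and
    ((eventually_ge_atTop ⌈8 * (ν + 1) / (ρ * ε ^ 3)⌉₊).and
      ((hside.eventually_gt_atTop RD).and (hside.eventually_ge_atTop ε))))).mono ?_
  rintro p ⟨hpp, hp2, hp3, hLR, hLε⟩
  simp only [Function.comp]
  have hp0 : (0 : ℝ) < p := by exact_mod_cast hpp.pos
  have hp1 : (1 : ℝ) ≤ p := by exact_mod_cast hpp.one_lt.le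
  set N := Nf p with hN
  have hN1 : ν * p ≤ N := Nat.le_ceil _
  have hN2 : (N : ℝ) < ν * p + 1 := Nat.ceil_lt_add_one (by positivity)
  have hNpos : (0 : ℝ) < N := lt_of_lt_of_le (by positivity) hN1
  have hNpos' : 0 < N := by exact_mod_cast hNpos
  set L := side ρ N with hL
  have hLpos : 0 < L := side_pos hρ hNpos'
  have : Fact (0 < L) := ⟨hLpos⟩
  have hL3 : L ^ 3 = N / ρ := side_pow hρ N
  have hsmall : 2 * (L / p) ≤ ε := by
    have h1 : 8 * (ν + 1) / (ρ * ε ^ 3) ≤ p :=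
      (Nat.le_ceil _).trans (by exact_mod_cast hp3)
    have h2 : 8 * (ν + 1) ≤ p * (ρ * ε ^ 3) := by
      rwa [div_le_iff₀ (by positivity)] at h1
    have h3 : (2 * L) ^ 3 ≤ (ε * p) ^ 3 := by
      have h4 : (2 * L) ^ 3 = 8 * (N / ρ) := by rw [mul_pow, hL3]; norm_num
      rw [h4, ← mul_div_assoc, div_le_iff₀ hρ]
      have h5 : (N : ℝ) ≤ (ν + 1) * p := by nlinarith
      calc 8 * (N : ℝ) ≤ 8 * ((ν + 1) * p) := by linarith
        _ = 8 * (ν + 1) * p := by ring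
        _ ≤ p * (ρ * ε ^ 3) * p := mul_le_mul_of_nonneg_right h2 hp0.le
        _ = ρ * ε ^ 3 * p ^ 2 * 1 := by ring
        _ ≤ ρ * ε ^ 3 * p ^ 2 * p := mul_le_mul_of_nonneg_left hp1 (by positivity)
        _ = (ε * p) ^ 3 * ρ := by ring
    have h6 : 2 * L ≤ ε * p := le_of_pow_le_pow_left₀ (by norm_num) (by positivity) h3
    rw [← mul_div_assoc, div_le_iff₀ hp0]
    exact h6
  have hvol' : p * volume.real (cthickening (2 * ε) C) ≤ 2 * L ^ 3 := by
    have h1 : (p : ℝ) / s ≤ L ^ 3 := by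
      rw [hL3, div_le_div_iff₀ hs hρ]
      have h2 : ν * s = ρ := div_mul_cancel₀ ρ hs.ne'
      calc (p : ℝ) * ρ = ν * p * s := by rw [← h2]; ring
        _ ≤ N * s := mul_le_mul_of_nonneg_right hN1 hs.le
    have h3 : volume.real (cthickening (2 * ε) C) ≤ 2 / s := by
      rw [le_div_iff₀ hs, mul_comm]
      exact hvol
    calc (p : ℝ) * volume.real (cthickening (2 * ε) C) ≤ p * (2 / s) :=
          mul_le_mul_of_nonneg_left h3 hp0.le
      _ = 2 * (p / s) := by ring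
      _ ≤ 2 * L ^ 3 := by linarith
  obtain ⟨X, hX⟩ := sites_at hC hsym hε hLpos hpp (by omega) hsmall hvol'
    (fun x hx => lt_of_le_of_lt (hRD x hx) hLR)
  have hup := upper_torus h0 (by positivity : 0 < ε / 4) (by linarith) (by linarith) hpp.pos hX
    hb hM hg0 hg1 hgC hgm hgi hm hK hvm hvi hKv N
  rw [div_le_iff₀ hNpos]
  refine (hE N hNpos').trans (hup.trans ?_)
  have hpairs : ((pairs N p).card : ℝ) ≤ (if ρ ≤ s then 0 else
      9 / 16 * ((N : ℝ) / p) - 1 / 2) * N := by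
    split_ifs with h1
    · have h2 : ν ≤ 1 := (div_le_one hs).2 h1
      have h3 : N ≤ p := by
        rw [hN, hNf]
        simp only
        rw [Nat.ceil_le]
        nlinarith
      rw [pairs_eq_zero N p h3]
      simp
    · push Not at h1
      have h2 : 1 < ν := (one_lt_div hs).2 h1
      have h3 : p ≤ N := by
        have h4 : (p : ℝ) ≤ N := by nlinarith
        exact_mod_cast h4
      have h5 := pairs_le N p hpp.pos h3
      have h6 : (9 / 16 * ((N : ℝ) / p) - 1 / 2) * N = N * (9 * N - 8 * p) / (16 * p) := by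
        field_simp
        ring
      rw [h6, le_div_iff₀ (by positivity)]
      linarith
  have h7 := mul_le_mul_of_nonneg_left hpairs hK.le
  simp only [hG]
  rw [← hN]
  calc _ ≤ 1 / (2 * m) * (N * T) + K * ((if ρ ≤ s then 0 else
      9 / 16 * ((N : ℝ) / p) - 1 / 2) * N) + N * (M * ((N : ℝ) / p + 1) * R) := by
        linarith
    _ = _ := by ring

end Pool.Agent.SCB
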