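import Mathlib

/-!
Project StrongCoupling (MP_2d9608_mp): a line of `F_p ^ 3` which misses a small symmetric set.
-/

set_option autoImplicit false

namespace Pool.Agent.SCB

/-- A symmetric set of at most `2 p ^ 2` nonzero vectors misses some line. -/
theorem exists_line (p : ℕ) [hp : Fact p.Prime] (hp2 : p ≠ 2) (B : Finset (Fin 3 → ZMod p))
    (hB : ∀ y ∈ B, -y ∈ B) (hB0 : 0 ∉ B) (hcard : B.card ≤ 2 * p ^ 2) :
    ∃ x : Fin 3 → ZMod p, x ≠ 0 ∧ ∀ j : ZMod p, j ≠ 0 → j • x ∉ B := by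
  classical
  by_contra hcon
  push Not at hcon
  have hp3 : 2 < p := lt_of_le_of_ne hp.out.two_le (Ne.symm hp2)
  have h2 : (2 : ZMod p) ≠ 0 := by
    intro h
    have h' : ((2 : ℕ) : ZMod p) = 0 := by exact_mod_cast h
    rw [ZMod.natCast_eq_zero_iff] at h'
    exact absurd (Nat.le_of_dvd (by norm_num) h') (by omega)
  -- double counting
  have hdc := Finset.sum_card_bipartiteAbove_eq_sum_card_bipartiteBelow
    (s := Finset.univ.filter fun x : Fin 3 → ZMod p => x ≠ 0)
    (t := Finset.univ.filter fun j : ZMod p => j ≠ 0) (fun x j => j • x ∈ B)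
  have hl : ∀ x ∈ Finset.univ.filter fun x : Fin 3 → ZMod p => x ≠ 0,
      2 ≤ (Finset.bipartiteAbove (fun (x : Fin 3 → ZMod p) (j : ZMod p) => j • x ∈ B)
        (Finset.univ.filter fun j : ZMod p => j ≠ 0) x).card := by
    intro x hx
    obtain ⟨j, hj, hjB⟩ := hcon x (Finset.mem_filter.1 hx).2
    have hne : j ≠ -j := by
      intro h
      have h3 : 2 * j = 0 := by
        rw [two_mul]
        nth_rewrite 2 [h]
        exact add_neg_cancel j
      rcases mul_eq_zero.1 h3 with h4 | h4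
      · exact h2 h4
      · exact hj h4
    rw [← Finset.card_pair hne]
    apply Finset.card_le_card
    intro i hi
    rw [Finset.mem_insert, Finset.mem_singleton] at hi
    rw [Finset.mem_bipartiteAbove, Finset.mem_filter]
    rcases hi with rfl | rfl
    · exact ⟨⟨Finset.mem_univ _, hj⟩, hjB⟩
    · refine ⟨⟨Finset.mem_univ _, neg_ne_zero.2 hj⟩, ?_⟩
      rw [neg_smul]
      exact hB _ hjB
  have hr : ∀ j ∈ Finset.univ.filter fun j : ZMod p => j ≠ 0,
      (Finset.bipartiteBelow (fun (x : Fin 3 → ZMod p) (j : ZMod p) => j • x ∈ B)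
        (Finset.univ.filter fun x : Fin 3 → ZMod p => x ≠ 0) j).card ≤ B.card := by
    intro j hj
    have hj0 := (Finset.mem_filter.1 hj).2
    refine Finset.card_le_card_of_injOn (fun x => j • x) ?_ ?_
    · intro x hx
      exact (Finset.mem_bipartiteBelow _).1 hx |>.2
    · intro x _ x' _ h
      exact smul_right_injective _ hj0 h
  have h3 := Finset.card_nsmul_le_sum _ _ 2 hl
  have h4 := Finset.sum_le_card_nsmul _ _ B.card hr
  rw [hdc] at h3
  have h5 := h3.trans h4
  have c1 : (Finset.univ.filter fun x : Fin 3 → ZMod p => x ≠ 0).card = p ^ 3 - 1 := by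
    rw [Finset.filter_ne', Finset.card_erase_of_mem (Finset.mem_univ _), Finset.card_univ,
      Fintype.card_fun, ZMod.card, Fintype.card_fin]
  have c2 : (Finset.univ.filter fun j : ZMod p => j ≠ 0).card = p - 1 := by
    rw [Finset.filter_ne', Finset.card_erase_of_mem (Finset.mem_univ _), Finset.card_univ,
      ZMod.card]
  rw [c1, c2, smul_eq_mul, smul_eq_mul] at h5
  have h6 : (p - 1) * B.card ≤ (p - 1) * (2 * p ^ 2) := Nat.mul_le_mul_left _ hcard
  have h7 := h5.trans h6
  obtain ⟨q, rfl⟩ : ∃ q, p = q + 1 := ⟨p - 1, by omega⟩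
  have h8 : 1 ≤ (q + 1) ^ 3 := Nat.one_le_pow _ _ (by omega)
  have h9 : (q + 1) ^ 3 - 1 = q ^ 3 + 3 * q ^ 2 + 3 * q := by
    have : (q + 1) ^ 3 = q ^ 3 + 3 * q ^ 2 + 3 * q + 1 := by ring
    omega
  rw [h9, Nat.add_sub_cancel] at h7
  have h10 : 2 ≤ q := by omega
  nlinarith

end Pool.Agent.SCB
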