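import Pool.Agent.H47.SE.SimpleBound

/-!
Project StrongCoupling (MP_2d9608_mp): the lower bound for the energy of a solution of the Simple
equation.
-/

set_option autoImplicit false

open MeasureTheory H47.SE

namespace Pool.Agent.SCB

/-- `e ≥ (K/2) (ρ ∫ min (g, t) - t)`. -/
theorem lower {m : ℝ} {v : E3 → ℝ} {ρ : ℝ} {u : E3 → ℝ} {e : ℝ}
    (h : IsSimpleSolution m v ρ u e) (hm : 0 < m) (hρ : 0 < ρ) (hv : Integrable v)
    {K : ℝ} (hK : 0 < K) {g : E3 → ℝ} (hg : Integrable g) (hg0 : ∀ x, 0 ≤ g x)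
    (hgpos : 0 < ∫ x, g x) (hgv : ∀ x, K * g x ≤ v x) {t : ℝ} (ht : 0 ≤ t) :
    K / 2 * (ρ * (∫ x, min (g x) t) - t) ≤ e := by
  have hv0 : ∀ x, 0 ≤ v x := fun x => (mul_nonneg hK.le (hg0 x)).trans (hgv x)
  have hpos : 0 < ∫ x, v x := by
    refine lt_of_lt_of_le (mul_pos hK hgpos) ?_
    rw [← integral_const_mul]
    exact integral_mono (hg.const_mul K) hv hgv
  have hu := integral_u h hm hρ hv hv0 hpos
  have hmin : Integrable fun x => min (g x) t := by
    refine hg.mono' (hg.1.aemeasurable.min aemeasurable_const).aestronglyMeasurable ?_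
    filter_upwards with x
    rw [Real.norm_eq_abs, abs_of_nonneg (le_min (hg0 x) ht)]
    exact min_le_left _ _
  have h1 : K * ((∫ x, min (g x) t) - t * ∫ x, u x) ≤ ∫ x, (1 - u x) * v x := by
    rw [← integral_const_mul t, ← integral_sub hmin (h.integrable.const_mul t),
      ← integral_const_mul]
    refine integral_mono_ae ((hmin.sub (h.integrable.const_mul t)).const_mul K) (h.int_g hv) ?_
    filter_upwards [h.bounds] with x hx
    have h2 : min (g x) t - t * u x ≤ (1 - u x) * min (g x) t := by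
      have h3 : u x * min (g x) t ≤ u x * t := mul_le_mul_of_nonneg_left (min_le_right _ _) hx.1
      nlinarith
    have h4 : (1 - u x) * min (g x) t ≤ (1 - u x) * g x :=
      mul_le_mul_of_nonneg_left (min_le_left _ _) (by linarith [hx.2])
    calc K * (min (g x) t - t * u x) ≤ K * ((1 - u x) * g x) :=
          mul_le_mul_of_nonneg_left (h2.trans h4) hK.le
      _ = (1 - u x) * (K * g x) := by ring
      _ ≤ (1 - u x) * v x := mul_le_mul_of_nonneg_left (hgv x) (by linarith [hx.2])
  rw [hu] at h1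
  have h5 := mul_le_mul_of_nonneg_left h1 (show 0 ≤ ρ / 2 by positivity)
  rw [← h.energy] at h5
  refine le_trans (le_of_eq ?_) h5
  field_simp

end Pool.Agent.SCB
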