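import Pool.Agent.SCB.Limit
import Pool.Agent.SCB.Lower
import Pool.Agent.H47.SE.Mono

/-!
Project StrongCoupling (MP_2d9608_mp): the comparison theorem.
-/

set_option autoImplicit false

open MeasureTheory H47.SE Metric Filter
open scoped ENNReal Topology

namespace Pool.Agent.SCB

/-- the truncated integral for small truncations -/
theorem exists_small {g : E3 → ℝ} (hgm : Measurable g) (hg0 : ∀ x, 0 ≤ g x) {ρ₁ : ℝ}
    (hρ₁ : 1 < ρ₁ * volume.real {x | 0 < g x}) :
    ∃ t > 0, t < ρ₁ * ∫ x, min (g x) t := by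
  set S : Set E3 := {x | 0 < g x} with hS
  have hSm : MeasurableSet S := measurableSet_lt measurable_const hgm
  have hSfin : volume S ≠ ∞ := by
    intro h
    rw [measureReal_def, h] at hρ₁
    simp at hρ₁
    linarith
  have h1 : Tendsto (fun n : ℕ => ∫ x, min (g x * (n + 1)) 1) atTop
      (𝓝 (∫ x, S.indicator (fun _ => (1 : ℝ)) x)) := by
    refine tendsto_integral_of_dominated_convergence (S.indicator fun _ => (1 : ℝ)) ?_ ?_ ?_ ?_
    · intro n
      exact ((hgm.mul_const _).min measurable_const).aestronglyMeasurable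
    · exact (integrable_indicator_iff hSm).2 (integrableOn_const hSfin)
    · intro n
      refine Eventually.of_forall fun x => ?_
      have h2 : 0 ≤ min (g x * (n + 1)) 1 :=
        le_min (mul_nonneg (hg0 x) (by positivity)) zero_le_one
      rw [Real.norm_eq_abs, abs_of_nonneg h2]
      by_cases hx : x ∈ S
      · rw [Set.indicator_of_mem hx]
        exact min_le_right _ _
      · rw [Set.indicator_of_notMem hx]
        have h3 : g x = 0 := le_antisymm (not_lt.1 hx) (hg0 x)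
        rw [h3, zero_mul]
        exact min_le_left _ _
    · refine Eventually.of_forall fun x => ?_
      by_cases hx : x ∈ S
      · rw [Set.indicator_of_mem hx]
        refine tendsto_const_nhds.congr' ?_
        have hgx : 0 < g x := hx
        filter_upwards [eventually_ge_atTop ⌈(g x)⁻¹⌉₊] with n hn
        have h4 : (g x)⁻¹ ≤ n := (Nat.le_ceil _).trans (by exact_mod_cast hn)
        have h5 : 1 ≤ g x * (n + 1) := by
          rw [inv_le_iff_one_le_mul₀ hgx] at h4
          nlinarith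
        exact (min_eq_right h5).symm
      · rw [Set.indicator_of_notMem hx]
        have h3 : g x = 0 := le_antisymm (not_lt.1 hx) (hg0 x)
        refine tendsto_const_nhds.congr fun n => ?_
        rw [h3, zero_mul, min_eq_left zero_le_one]
  rw [integral_indicator_const _ hSm, smul_eq_mul, mul_one] at h1
  have h2 : ∀ᶠ n : ℕ in atTop, 1 < ρ₁ * ∫ x, min (g x * (n + 1)) 1 :=
    (h1.const_mul ρ₁).eventually_const_lt hρ₁
  obtain ⟨n, hn⟩ := h2.exists
  have hn0 : (0 : ℝ) < n + 1 := by positivity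
  refine ⟨(n + 1 : ℝ)⁻¹, inv_pos.2 hn0, ?_⟩
  have h6 : ∫ x, min (g x) (n + 1 : ℝ)⁻¹ = (n + 1 : ℝ)⁻¹ * ∫ x, min (g x * (n + 1)) 1 := by
    rw [← integral_const_mul]
    congr 1
    funext x
    rw [mul_min_of_nonneg _ _ (inv_nonneg.2 hn0.le), mul_one, mul_comm (g x),
      inv_mul_cancel_left₀ hn0.ne']
  rw [h6]
  have h7 := mul_lt_mul_of_pos_left hn (inv_pos.2 hn0)
  linarith

/-- the comparison, with `0` in the set -/
theorem main {C : Set E3} (hC : IsCompact C) (hsym : ∀ x ∈ C, -x ∈ C) (h0 : (0 : E3) ∈ C)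
    {g : E3 → ℝ} (hgm : Measurable g) (hg0 : ∀ x, 0 ≤ g x) (hg1 : ∀ x, g x ≤ 1)
    (hgC : ∀ x ∉ C, g x = 0) (hθ : 9 * volume.real C < 16 * ∫ x, g x) {ρ₁ : ℝ}
    (hρ₁ : 1 < ρ₁ * volume.real {x | 0 < g x}) :
    ∃ A > 0, ∃ c > 0, ∀ ρ ≥ ρ₁, ∀ m K : ℝ, 0 < m → 0 < K → A ≤ m * K →
      ∀ v : E3 → ℝ, Measurable v → Integrable v → (∀ x, K * g x ≤ v x) →
      A * ∫ x, (v x - K * g x) ≤ K →
      ∀ (u : E3 → ℝ) (e : ℝ), IsSimpleSolution m v ρ u e → ∀ (E : ℕ → ℝ) (e₀ : ℝ),
      (∀ N, 0 < N → E N ≤ groundEnergy m (perPot v (side ρ N)) N (side ρ N)) →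
      Tendsto (fun N : ℕ => E N / N) atTop (𝓝 e₀) → e₀ + c * K * ρ ≤ e := by
  have hCfin : volume C ≠ ∞ := hC.measure_lt_top.ne
  have hρ₁0 : 0 < ρ₁ := by
    by_contra h
    push Not at h
    have := mul_nonpos_of_nonpos_of_nonneg h (measureReal_nonneg (μ := (volume : Measure E3))
      (s := {x | 0 < g x}))
    linarith
  -- integrability of g
  have hgi : Integrable g := by
    refine Integrable.mono' (g := C.indicator fun _ => (1 : ℝ)) ?_ hgm.aestronglyMeasurable ?_
    · exact (integrable_indicator_iff hC.measurableSet).2 (integrableOn_const hCfin)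
    · refine Eventually.of_forall fun x => ?_
      rw [Real.norm_eq_abs, abs_of_nonneg (hg0 x)]
      by_cases hx : x ∈ C
      · rw [Set.indicator_of_mem hx]
        exact hg1 x
      · rw [Set.indicator_of_notMem hx, hgC x hx]
  set V := volume.real C with hV
  set J := ∫ x, g x with hJ
  have hV0 : 0 ≤ V := measureReal_nonneg
  have hJV : J ≤ V := by
    have h1 : ∫ x, g x ≤ ∫ x, C.indicator (fun _ => (1 : ℝ)) x := by
      refine integral_mono hgi
        ((integrable_indicator_iff hC.measurableSet).2 (integrableOn_const hCfin)) fun x => ?_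
      by_cases hx : x ∈ C
      · rw [Set.indicator_of_mem hx]
        exact hg1 x
      · rw [Set.indicator_of_notMem hx, hgC x hx]
    rw [integral_indicator_const _ hC.measurableSet, smul_eq_mul, mul_one] at h1
    exact h1
  have hJ0 : 0 < J := by linarith
  have hVpos : 0 < V := by linarith
  -- the parameter s
  obtain ⟨s, hs0, hsV, hsJ⟩ : ∃ s > 0, s * V < 2 ∧ 9 / 8 < s * J := by
    have h1 : 9 / (8 * J) < 2 / V := by
      rw [div_lt_div_iff₀ (by positivity) hVpos]
      linarith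
    refine ⟨(9 / (8 * J) + 2 / V) / 2, by positivity, ?_, ?_⟩
    · have h2 : (9 / (8 * J) + 2 / V) / 2 < 2 / V := by linarith
      rwa [lt_div_iff₀ hVpos] at h2
    · have h2 : 9 / (8 * J) < (9 / (8 * J) + 2 / V) / 2 := by linarith
      rw [div_lt_iff₀ (by positivity)] at h2
      linarith
  -- the parameter ε
  obtain ⟨ε, hε, hvol⟩ : ∃ ε > 0, s * volume.real (cthickening (2 * ε) C) ≤ 2 := by
    have h1 : Tendsto (fun r => volume (cthickening r C)) (𝓝 0) (𝓝 (volume C)) :=
      tendsto_measure_cthickening_of_isCompact hC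
    have h2 : Tendsto (fun r => volume.real (cthickening r C)) (𝓝 0) (𝓝 V) :=
      (ENNReal.tendsto_toReal hCfin).comp h1
    have h3 : Tendsto (fun r => s * volume.real (cthickening (2 * r) C)) (𝓝 0) (𝓝 (s * V)) := by
      have h4 : Tendsto (fun r : ℝ => 2 * r) (𝓝 0) (𝓝 0) := by
        have := (continuous_const_mul (2 : ℝ)).tendsto 0
        simpa using this
      exact (h2.comp h4).const_mul s
    have h5 := h3.eventually_lt_const hsV
    have h6 : ∀ᶠ r : ℝ in 𝓝[>] 0, s * volume.real (cthickening (2 * r) C) < 2 :=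
      h5.filter_mono nhdsWithin_le_nhds
    obtain ⟨r, hr1, hr2⟩ := (h6.and self_mem_nhdsWithin).exists
    exact ⟨r, hr2, hr1.le⟩
  -- the bump
  obtain ⟨b, hb⟩ := exists_BP (by positivity : 0 < ε / 4)
  obtain ⟨M, hM⟩ : ∃ M, ∀ x, b x ^ 2 ≤ M := by
    have hc : Continuous fun x => b x ^ 2 := hb.smooth.continuous.pow 2
    have hs : HasCompactSupport fun x => b x ^ 2 :=
      hb.compact.comp_left (g := fun t : ℝ => t ^ 2) (by simp)
    obtain ⟨M, hM⟩ := hs.exists_bound_of_continuous hc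
    exact ⟨M, fun x => (le_abs_self _).trans (hM x)⟩
  have hM0 : 0 ≤ M := (sq_nonneg _).trans (hM 0)
  set T := ∑ a, ∫ x, (fderiv ℝ b x (ea a)) ^ 2 with hT
  have hT0 : 0 ≤ T := Finset.sum_nonneg fun a _ => integral_nonneg fun x => sq_nonneg _
  obtain ⟨t, ht0, ht⟩ := exists_small hgm hg0 hρ₁
  -- the constants
  set δ := ρ₁ * (∫ x, min (g x) t) - t with hδ
  have hδ0 : 0 < δ := sub_pos.2 ht
  set c₁ := δ / (2 * ρ₁) with hc₁
  set c₂ := (s * J - 9 / 8) / (2 * s) with hc₂
  have hc₁0 : 0 < c₁ := by positivity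
  have hc₂0 : 0 < c₂ := div_pos (by linarith) (by positivity)
  set c' := min c₁ c₂ with hc'
  have hc'0 : 0 < c' := lt_min hc₁0 hc₂0
  set B := T / (2 * ρ₁) + M * (1 / s + 1 / ρ₁) with hB
  have hB0 : 0 ≤ B := by positivity
  set A := 2 * B / c' + 1 with hA
  have hA0 : 0 < A := by positivity
  have hBA : B / A ≤ c' / 2 := by
    rw [div_le_iff₀ hA0, hA]
    have h1 : c' / 2 * (2 * B / c' + 1) = B + c' / 2 := by
      field_simp
    rw [h1]
    linarith
  refine ⟨A, hA0, c' / 2, by positivity, ?_⟩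
  intro ρ hρ m K hm hK hAmK v hvm hvi hKv hAR u e hu E e₀ hE he₀
  have hρ0 : 0 < ρ := lt_of_lt_of_le hρ₁0 hρ
  set R := ∫ x, (v x - K * g x) with hR
  have hR0 : 0 ≤ R := integral_nonneg fun x => sub_nonneg.2 (hKv x)
  -- the error terms
  have herr : 1 / (2 * m) * T + M * (ρ / s + 1) * R ≤ c' / 2 * K * ρ := by
    have h1 : 1 / m ≤ K / A := by
      rw [div_le_div_iff₀ hm hA0]
      linarith
    have h2 : R ≤ K / A := by
      rw [le_div_iff₀ hA0]
      linarith
    have h3 : 1 / (2 * m) * T ≤ K / A * (T / 2) := by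
      calc 1 / (2 * m) * T = 1 / m * (T / 2) := by
            field_simp
        _ ≤ K / A * (T / 2) := mul_le_mul_of_nonneg_right h1 (by positivity)
    have h4 : M * (ρ / s + 1) * R ≤ M * (ρ / s + 1) * (K / A) :=
      mul_le_mul_of_nonneg_left h2 (by positivity)
    have h5 : (1 : ℝ) ≤ ρ / ρ₁ := (one_le_div hρ₁0).2 hρ
    have h6 : T / 2 ≤ ρ * (T / (2 * ρ₁)) := by
      calc T / 2 = T / 2 * 1 := by ring
        _ ≤ T / 2 * (ρ / ρ₁) := mul_le_mul_of_nonneg_left h5 (by positivity)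
        _ = ρ * (T / (2 * ρ₁)) := by
          field_simp
    have h7 : M * (ρ / s + 1) ≤ ρ * (M * (1 / s + 1 / ρ₁)) := by
      calc M * (ρ / s + 1) ≤ M * (ρ / s + ρ / ρ₁) :=
            mul_le_mul_of_nonneg_left (by linarith) hM0
        _ = ρ * (M * (1 / s + 1 / ρ₁)) := by ring
    have hKA : 0 ≤ K / A := by positivity
    calc 1 / (2 * m) * T + M * (ρ / s + 1) * R
        ≤ K / A * (T / 2) + M * (ρ / s + 1) * (K / A) := add_le_add h3 h4
      _ = K / A * (T / 2 + M * (ρ / s + 1)) := by ring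
      _ ≤ K / A * (ρ * (T / (2 * ρ₁)) + ρ * (M * (1 / s + 1 / ρ₁))) :=
          mul_le_mul_of_nonneg_left (add_le_add h6 h7) hKA
      _ = K * ρ * (B / A) := by rw [hB]; ring
      _ ≤ K * ρ * (c' / 2) := mul_le_mul_of_nonneg_left hBA (by positivity)
      _ = c' / 2 * K * ρ := by ring
  rcases le_or_gt ρ s with hρs | hρs
  · -- one particle per site
    have hup := limit_le hC hsym h0 hε hs0 hvol hb hM hg0 hg1 hgC hgm hgi hm hK hρ0 hvm hvi hKv
      hE he₀ (P := 0) (Or.inl ⟨hρs, rfl⟩)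
    have hlo := lower hu hm hρ0 hvi hK hgi hg0 hJ0 hKv ht0.le
    have h1 : ρ / ρ₁ * δ ≤ ρ * (∫ x, min (g x) t) - t := by
      have h5 : (1 : ℝ) ≤ ρ / ρ₁ := (one_le_div hρ₁0).2 hρ
      have h6 : ρ / ρ₁ * δ = ρ * (∫ x, min (g x) t) - ρ / ρ₁ * t := by
        rw [hδ]
        field_simp
      rw [h6]
      nlinarith
    have h2 : c' * K * ρ ≤ e := by
      calc c' * K * ρ ≤ c₁ * K * ρ := by
            have := min_le_left c₁ c₂
            have h3 : 0 ≤ K * ρ := by positivity
            nlinarith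
        _ = K / 2 * (ρ / ρ₁ * δ) := by
            rw [hc₁]
            field_simp
        _ ≤ K / 2 * (ρ * (∫ x, min (g x) t) - t) :=
            mul_le_mul_of_nonneg_left h1 (by positivity)
        _ ≤ e := hlo
    rw [← hT, ← hR, mul_zero] at hup
    linarith
  · -- several particles per site
    have hup := limit_le hC hsym h0 hε hs0 hvol hb hM hg0 hg1 hgC hgm hgi hm hK hρ0 hvm hvi hKv
      hE he₀ (P := 9 / 16 * (ρ / s) - 1 / 2) (Or.inr ⟨hρs, rfl⟩)
    have hlo := lower hu hm hρ0 hvi hK hgi hg0 hJ0 hKv (t := 1) zero_le_one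
    have h1 : ∫ x, min (g x) 1 = J := by
      rw [hJ]
      congr 1
      funext x
      exact min_eq_left (hg1 x)
    rw [h1] at hlo
    have h2 : c' * K * ρ + K * (9 / 16 * (ρ / s) - 1 / 2) ≤ e := by
      calc c' * K * ρ + K * (9 / 16 * (ρ / s) - 1 / 2)
          ≤ c₂ * K * ρ + K * (9 / 16 * (ρ / s) - 1 / 2) := by
            have := min_le_right c₁ c₂
            have h3 : 0 ≤ K * ρ := by positivity
            nlinarith
        _ = K / 2 * (ρ * J - 1) := by
            rw [hc₂]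
            field_simp
            ring
        _ ≤ e := hlo
    rw [← hT, ← hR] at hup
    linarith

/-- the comparison theorem -/
theorem main' {C : Set E3} (hC : IsCompact C) (hsym : ∀ x ∈ C, -x ∈ C)
    {g : E3 → ℝ} (hgm : Measurable g) (hg0 : ∀ x, 0 ≤ g x) (hg1 : ∀ x, g x ≤ 1)
    (hgC : ∀ x ∉ C, g x = 0) (hθ : 9 * volume.real C < 16 * ∫ x, g x) {ρ₁ : ℝ}
    (hρ₁ : 1 < ρ₁ * volume.real {x | 0 < g x}) :
    ∃ A > 0, ∃ c > 0, ∀ ρ ≥ ρ₁, ∀ m K : ℝ, 0 < m → 0 < K → A ≤ m * K →
      ∀ v : E3 → ℝ, Measurable v → Integrable v → (∀ x, K * g x ≤ v x) →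
      A * ∫ x, (v x - K * g x) ≤ K →
      ∀ (u : E3 → ℝ) (e : ℝ), IsSimpleSolution m v ρ u e → ∀ (E : ℕ → ℝ) (e₀ : ℝ),
      (∀ N, 0 < N → E N ≤ groundEnergy m (perPot v (side ρ N)) N (side ρ N)) →
      Tendsto (fun N : ℕ => E N / N) atTop (𝓝 e₀) → e₀ + c * K * ρ ≤ e := by
  have hV : volume.real (insert (0 : E3) C) = volume.real C :=
    measureReal_congr (insert_ae_eq_self (0 : E3) C)
  refine main (C := insert 0 C) (hC.insert 0) ?_ (Set.mem_insert _ _) hgm hg0 hg1 ?_
    (by rw [hV]; exact hθ) hρ₁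
  · intro x hx
    rcases hx with rfl | hx
    · rw [neg_zero]
      exact Set.mem_insert _ _
    · exact Set.mem_insert_of_mem _ (hsym x hx)
  · intro x hx
    exact hgC x fun h => hx (Set.mem_insert_of_mem _ h)

end Pool.Agent.SCB
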