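import Pool.Agent.H47.SE.TwoPhase

/-!
Project StrongCoupling (MP_2d9608_mp): product trial states.
-/

set_option autoImplicit false

open MeasureTheory ProbabilityTheory H47.SE
open scoped ENNReal

namespace Pool.Agent.SCB

/-- an admissible factor of a product state -/
structure PF (L : ℝ) (f : E3 → ℝ) : Prop where
  smooth : ContDiff ℝ (⊤ : ℕ∞) f
  per : ∀ x n, f (x + latt L n) = f x
  one : ∫ x in cell L, f x ^ 2 = 1

/-- the product wave function -/
noncomputable def pw {N : ℕ} (f : Fin N → E3 → ℝ) (x : Fin N → E3) : ℂ :=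
  ((∏ i, f i (x i) : ℝ) : ℂ)

/-- the basis vector -/
noncomputable abbrev ea (a : Fin 3) : E3 := EuclideanSpace.single a 1

variable {N : ℕ} {L : ℝ} {f : Fin N → E3 → ℝ}

theorem norm_pw_sq (x : Fin N → E3) : ‖pw f x‖ ^ 2 = ∏ i, f i (x i) ^ 2 := by
  rw [pw, Complex.norm_real, Real.norm_eq_abs, sq_abs, Finset.prod_pow]

theorem integral_box_prod (g : Fin N → E3 → ℝ) :
    ∫ x in box (Fin N) L, ∏ i, g i (x i) = ∏ i, ∫ x in cell L, g i x := by
  have h4 : (volume : Measure (Fin N → E3)).restrict (box (Fin N) L) =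
      Measure.pi (fun _ => volume.restrict (cell L)) := by
    rw [volume_pi, box_eq, Measure.restrict_pi_pi]
  rw [h4]
  exact integral_fintype_prod_eq_prod (𝕜 := ℝ) g

theorem contDiff_prodf (hf : ∀ i, PF L (f i)) :
    ContDiff ℝ (⊤ : ℕ∞) fun x : Fin N → E3 => ∏ i, f i (x i) := by
  apply contDiff_prod
  intro i _
  exact (hf i).smooth.comp (contDiff_apply ℝ E3 i)

theorem isTrial_pw (hf : ∀ i, PF L (f i)) : IsTrial N L (pw f) := by
  refine ⟨?_, ?_, ?_⟩
  · exact Complex.ofRealCLM.contDiff.comp (contDiff_prodf hf)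
  · intro x n
    simp only [pw]
    congr 1
    exact Finset.prod_congr rfl fun i _ => (hf i).per _ _
  · simp_rw [norm_pw_sq]
    rw [integral_box_prod fun i x => f i x ^ 2]
    simp_rw [(hf _).one]
    simp

theorem integral_norm_pw (hf : ∀ i, PF L (f i)) :
    ∫ x in box (Fin N) L, ‖pw f x‖ ^ 2 = 1 := by
  simp_rw [norm_pw_sq]
  rw [integral_box_prod fun i x => f i x ^ 2]
  simp_rw [(hf _).one]
  simp

theorem fderiv_pw (hf : ∀ i, PF L (f i)) (x : Fin N → E3) (k : Fin N) (a : Fin 3) :
    ‖fderiv ℝ (pw f) x (dirE k a)‖ ^ 2 =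
      ∏ j, if j = k then (fderiv ℝ (f k) (x j) (ea a)) ^ 2 else f j (x j) ^ 2 := by
  have h1 : ∀ i ∈ (Finset.univ : Finset (Fin N)), HasFDerivAt (fun x : Fin N → E3 => f i (x i))
      ((fderiv ℝ (f i) (x i)).comp (ContinuousLinearMap.proj (R := ℝ) i)) x := by
    intro i _
    have h2 : HasFDerivAt (f i) (fderiv ℝ (f i) (x i)) (x i) :=
      ((hf i).smooth.differentiable (by simp)).differentiableAt.hasFDerivAt
    exact h2.comp x (hasFDerivAt_apply i x)
  have h3 := HasFDerivAt.finsetProd h1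
  have h4 : HasFDerivAt (pw f) (Complex.ofRealCLM.comp
      (∑ i, (∏ j ∈ Finset.univ.erase i, f j (x j)) •
        ((fderiv ℝ (f i) (x i)).comp (ContinuousLinearMap.proj (R := ℝ) i)))) x :=
    Complex.ofRealCLM.hasFDerivAt.comp x h3
  rw [h4.fderiv]
  have h5 : (∑ i, (∏ j ∈ Finset.univ.erase i, f j (x j)) •
        ((fderiv ℝ (f i) (x i)).comp (ContinuousLinearMap.proj (R := ℝ) i))) (dirE k a) =
      (∏ j ∈ Finset.univ.erase k, f j (x j)) * fderiv ℝ (f k) (x k) (ea a) := by
    rw [sum_apply, Finset.sum_eq_single k]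
    · simp [dirE]
    · intro i _ hik
      simp [dirE, hik]
    · simp
  rw [ContinuousLinearMap.comp_apply, h5, Complex.ofRealCLM_apply, Complex.norm_real,
    Real.norm_eq_abs, sq_abs, mul_pow, ← Finset.prod_pow, ← Finset.mul_prod_erase _ _
      (Finset.mem_univ k), if_pos rfl, mul_comm]
  congr 1
  refine Finset.prod_congr rfl fun j hj => ?_
  rw [if_neg (Finset.ne_of_mem_erase hj)]

theorem kinetic_pw (hf : ∀ i, PF L (f i)) (m : ℝ) :
    kinetic m N L (pw f) = 1 / (2 * m) * ∑ i, ∑ a, ∫ x in cell L, (fderiv ℝ (f i) x (ea a)) ^ 2 := by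
  unfold kinetic
  congr 1
  refine Finset.sum_congr rfl fun k _ => Finset.sum_congr rfl fun a _ => ?_
  simp_rw [fderiv_pw hf]
  rw [integral_box_prod fun j y => if j = k then (fderiv ℝ (f k) y (ea a)) ^ 2 else f j y ^ 2,
    ← Finset.mul_prod_erase _ _ (Finset.mem_univ k)]
  simp only [if_true]
  rw [Finset.prod_eq_one, mul_one]
  intro j hj
  simp only [if_neg (Finset.ne_of_mem_erase hj)]
  exact (hf j).one

/-- the density with respect to the uniform measure -/
noncomputable def dn (L : ℝ) (f : E3 → ℝ) (x : E3) : ℝ := L ^ 3 * f x ^ 2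

theorem dn_nonneg [hL : Fact (0 < L)] (f : E3 → ℝ) (x : E3) : 0 ≤ dn L f x := by
  have := hL.out
  unfold dn
  positivity

theorem PF.continuous_dn {f : E3 → ℝ} (hf : PF L f) : Continuous (dn L f) := by
  unfold dn
  exact continuous_const.mul (hf.smooth.continuous.pow 2)

theorem PF.integral_dn [hL : Fact (0 < L)] {f : E3 → ℝ} (hf : PF L f) :
    ∫ x, dn L f x ∂(unif L) = 1 := by
  have h3 : 0 < L ^ 3 := by have := hL.out; positivity
  rw [integral_unif]
  unfold dn
  rw [integral_const_mul, hf.one, smul_eq_mul, mul_one, inv_mul_cancel₀ h3.ne']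

theorem PF.integrable_dn [hL : Fact (0 < L)] {f : E3 → ℝ} (hf : PF L f) :
    Integrable (dn L f) (unif L) := by
  by_contra h
  have h1 := integral_undef h
  rw [hf.integral_dn] at h1
  exact one_ne_zero h1

theorem PF.lintegral_dn [hL : Fact (0 < L)] {f : E3 → ℝ} (hf : PF L f) :
    ∫⁻ x, ENNReal.ofReal (dn L f x) ∂(unif L) = 1 := by
  rw [← ofReal_integral_eq_lintegral_ofReal hf.integrable_dn
    (Filter.Eventually.of_forall fun y => dn_nonneg f y), hf.integral_dn, ENNReal.ofReal_one]

theorem integral_pair [hL : Fact (0 < L)] {w : E3 → ℝ} (hwm : Measurable w)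
    (hf : ∀ i, PF L (f i)) {k l : Fin N} (hkl : k ≠ l) :
    ∫ x in box (Fin N) L, w (x k - x l) * ‖pw f x‖ ^ 2 =
      ∫ z : E3 × E3, w (z.1 - z.2) * (dn L (f k) z.1 * dn L (f l) z.2)
        ∂((unif L).prod (unif L)) := by
  have h3 : 0 < L ^ 3 := by have := hL.out; positivity
  set g : Fin N → E3 → ℝ≥0∞ := fun i y => ENNReal.ofReal (dn L (f i) y) with hg
  have hgm : ∀ i, Measurable (g i) := fun i => (hf i).continuous_dn.measurable.ennreal_ofReal
  have hg1 : ∀ i, ∫⁻ y, g i y ∂(unif L) = 1 := fun i => (hf i).lintegral_dn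
  have hpi := pi_withDensity (unif L) g hgm hg1
  have hprob : ∀ i, IsProbabilityMeasure ((unif L).withDensity (g i)) := by
    intro i
    constructor
    rw [withDensity_apply _ MeasurableSet.univ, Measure.restrict_univ, hg1]
  have h1 : ∫ x in box (Fin N) L, w (x k - x l) * ‖pw f x‖ ^ 2 =
      ∫ x, w (x k - x l) ∂(Measure.pi (fun i => (unif L).withDensity (g i))) := by
    rw [hpi, integral_withDensity_eq_integral_toReal_smul, integral_unifN, ← integral_const_mul]
    · unfold unifN
      congr 1; ext x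
      rw [ENNReal.toReal_prod, smul_eq_mul, norm_pw_sq, hg]
      simp only [ENNReal.toReal_ofReal (dn_nonneg _ _)]
      unfold dn
      rw [Finset.prod_mul_distrib, Finset.prod_const, Finset.card_univ]
      ring
    · exact Finset.measurable_fun_prod _ (fun i _ => (hgm i).comp (measurable_pi_apply i))
    · filter_upwards with x
      exact ENNReal.prod_lt_top (fun i _ => ENNReal.ofReal_lt_top)
  have mp := mp_pair (fun i => (unif L).withDensity (g i)) hkl
  have h2 : ∫ x, w (x k - x l) ∂(Measure.pi (fun i => (unif L).withDensity (g i))) =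
      ∫ z : E3 × E3, w (z.1 - z.2)
        ∂(((unif L).withDensity (g k)).prod ((unif L).withDensity (g l))) := by
    rw [← mp.map_eq, integral_map mp.measurable.aemeasurable]
    exact (hwm.comp (by fun_prop)).aestronglyMeasurable
  rw [h1, h2, prod_withDensity (hgm k) (hgm l), integral_withDensity_eq_integral_toReal_smul]
  · congr 1; ext z
    rw [ENNReal.toReal_mul, smul_eq_mul, mul_comm, hg]
    simp only [ENNReal.toReal_ofReal (dn_nonneg _ _)]
  · exact ((hgm k).comp measurable_fst).mul ((hgm l).comp measurable_snd)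
  · filter_upwards with z
    exact ENNReal.mul_lt_top ENNReal.ofReal_lt_top ENNReal.ofReal_lt_top

/-- The energy of a product state. -/
theorem prod_energy [hL : Fact (0 < L)] {m : ℝ} (hm : 0 < m) {w : E3 → ℝ} (hw : ∀ x, 0 ≤ w x)
    (hwm : Measurable w) (hf : ∀ i, PF L (f i)) :
    groundEnergy m w N L ≤
      1 / (2 * m) * (∑ i, ∑ a, ∫ x in cell L, (fderiv ℝ (f i) x (ea a)) ^ 2) +
      ∑ p : Fin N × Fin N, if p.1 < p.2 then
        ∫ z : E3 × E3, w (z.1 - z.2) * (dn L (f p.1) z.1 * dn L (f p.2) z.2)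
          ∂((unif L).prod (unif L)) else 0 := by
  have h1 := groundEnergy_le hm hw (isTrial_pw hf)
  rw [integral_norm_pw hf, mul_one, kinetic_pw hf] at h1
  refine h1.trans (le_of_eq ?_)
  congr 1
  unfold potential
  refine Finset.sum_congr rfl fun p _ => ?_
  split_ifs with hlt
  · exact integral_pair hwm hf hlt.ne
  · rfl

end Pool.Agent.SCB
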